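import Pool.Agent.H853.RU.Fil

/-!
# Residually unipotent representations: finite level
-/

set_option autoImplicit false

namespace Pool.Agent.H853.RU

open Module Polynomial

/-- a monic polynomial that splits, as a product over `Fin n` -/
theorem exists_roots {K : Type*} [Field K] {n : ℕ} {p : K[X]} (hp : p.Monic) (hn : p.natDegree = n)
    (hs : p.Splits) : ∃ b : Fin n → K, p = ∏ i, (X - C (b i)) := by
  have h1 : p = (p.roots.map fun a => X - C a).prod := hs.eq_prod_roots_of_monic hp
  have h2 : p.roots.card = n := by rw [← hn]; exact hs.natDegree_eq_card_roots.symm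
  obtain ⟨l, hl⟩ : ∃ l : List K, (l : Multiset K) = p.roots := ⟨_, Multiset.coe_toList _⟩
  rw [← hl] at h1 h2
  rw [Multiset.coe_card] at h2
  subst h2
  refine ⟨fun i => l.get i, ?_⟩
  rw [h1, Multiset.map_coe, Multiset.prod_coe, ← List.prod_ofFn]
  congr 1
  conv_lhs => rw [← List.ofFn_get l]
  rw [List.map_ofFn]
  rfl

/-- Extension of the residue field. -/
theorem exists_ext {A κ : Type*} [CommRing A] [IsNoetherianRing A] [Field κ] [Finite κ]
    {res : A →+* κ} (hres : Function.Surjective res) {k : ℕ} (hk : RingHom.ker res ^ k = ⊥)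
    (κ' : Type*) [Field κ'] [Algebra κ κ'] [FiniteDimensional κ κ'] :
    ∃ (P : A[X]) (res' : AdjoinRoot P →+* κ'), Function.Surjective res' ∧
      RingHom.ker res' ^ k = ⊥ ∧ Function.Injective (AdjoinRoot.of P) ∧
      ∀ a, res' (AdjoinRoot.of P a) = algebraMap κ κ' (res a) := by
  have : Nontrivial A := by
    refine ⟨1, 0, fun h => ?_⟩
    have h1 := congrArg res h
    rw [map_one, map_zero] at h1
    exact one_ne_zero h1
  have : PerfectField κ := inferInstance
  have : Algebra.IsSeparable κ κ' := inferInstance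
  let pb := Field.powerBasisOfFiniteOfSeparable κ κ'
  set θ := pb.gen with hθ
  have hint : IsIntegral κ θ := pb.isIntegral_gen
  obtain ⟨P, hP1, hP2, hP3⟩ := Polynomial.lifts_and_natDegree_eq_and_monic (f := res)
    ((Polynomial.mem_lifts _).2 (Polynomial.map_surjective res hres _)) (minpoly.monic hint)
  have hroot : P.eval₂ ((algebraMap κ κ').comp res) θ = 0 := by
    rw [← Polynomial.eval₂_map, hP1, ← aeval_def, minpoly.aeval]
  let res' : AdjoinRoot P →+* κ' := AdjoinRoot.lift ((algebraMap κ κ').comp res) θ hroot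
  have hres' : ∀ Q : A[X], res' (AdjoinRoot.mk P Q) = aeval θ (Q.map res) := by
    intro Q
    rw [AdjoinRoot.lift_mk, ← Polynomial.eval₂_map, aeval_def]
  have hdeg : 0 < P.natDegree := by
    rw [hP2]
    exact minpoly.natDegree_pos hint
  refine ⟨P, res', ?_, ?_, ?_, ?_⟩
  · intro y
    obtain ⟨Q, hQ⟩ := pb.exists_eq_aeval' y
    obtain ⟨Q', rfl⟩ := Polynomial.map_surjective res hres Q
    exact ⟨AdjoinRoot.mk P Q', by rw [hres', hQ]⟩
  · have h1 : RingHom.ker res' ≤ (RingHom.ker res).map (AdjoinRoot.of P) := by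
      intro x hx
      obtain ⟨Q, rfl⟩ := AdjoinRoot.mk_surjective x
      have h2 : AdjoinRoot.mk P Q = AdjoinRoot.mk P (Q %ₘ P) := by
        rw [AdjoinRoot.mk_eq_mk]
        exact ⟨Q /ₘ P, by rw [sub_eq_iff_eq_add, add_comm, Polynomial.modByMonic_add_div]⟩
      rw [h2, RingHom.mem_ker, hres'] at hx
      have h3 : (Q %ₘ P).map res = 0 := by
        by_contra hne
        have h4 := natDegree_le_natDegree (minpoly.degree_le_of_ne_zero κ θ hne hx)
        have h5 : (Q %ₘ P).natDegree < P.natDegree :=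
          Polynomial.natDegree_modByMonic_lt Q hP3 (by
            intro h
            rw [h, natDegree_one] at hdeg
            exact lt_irrefl _ hdeg)
        have h6 := Polynomial.natDegree_map_le (f := res) (p := Q %ₘ P)
        rw [hP2] at h5
        omega
      have h4 : Q %ₘ P ∈ (RingHom.ker res).map (C : A →+* A[X]) := by
        rw [Ideal.mem_map_C_iff]
        intro i
        rw [RingHom.mem_ker, ← Polynomial.coeff_map, h3, coeff_zero]
      rw [h2]
      have h5 := Ideal.mem_map_of_mem (AdjoinRoot.mk P) h4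
      rw [Ideal.map_map] at h5
      exact h5
    rw [eq_bot_iff]
    refine (Ideal.pow_right_mono h1 k).trans ?_
    rw [← Ideal.map_pow, hk, Ideal.map_bot]
  · rw [injective_iff_map_eq_zero]
    intro a ha
    by_contra hne
    have h1 : P ∣ C a := AdjoinRoot.mk_eq_zero.1 ha
    refine hP3.not_dvd_of_natDegree_lt (C_ne_zero.2 hne) ?_ h1
    rw [natDegree_C]
    exact hdeg
  · intro a
    exact AdjoinRoot.lift_of hroot

variable {A κ : Type*} [CommRing A] [Field κ] {n : ℕ} {Γ : Type*} [Group Γ]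

/-- Finite level. -/
theorem fin_level [IsNoetherianRing A] [Finite κ] (K : Type*) [Field K] [IsAlgClosed K]
    [Algebra κ K] (res : A →+* κ) (hres : Function.Surjective res) {k : ℕ}
    (hk : RingHom.ker res ^ k = ⊥) (π : Subgroup Γ) [π.Normal]
    (ρ : Γ →* (Matrix (Fin n) (Fin n) A)ˣ) (F : Γ) (S : Set K)
    (hS : ∀ (s : K) (c : π → K), (∀ g h, c (g * h) = c g + c h) →
      (∀ g h : π, ρ g = ρ h → c g = c h) →
      (∀ g h : π, (h : Γ) = F * g * F⁻¹ → c h = s * c g) → (∃ g, c g ≠ 0) → s ∈ S)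
    (hcyc : ∀ (m : ℕ) (u : ℕ → K), 0 < m → m ≤ n →
      (∀ j ≤ m, ((((ρ F : Matrix (Fin n) (Fin n) A).map res).charpoly).map
        (algebraMap κ K)).IsRoot (u j)) →
      (∀ j < m, ∃ s ∈ S, u (j + 1) = s * u j) → u m ≠ u 0)
    {N : ℕ} (hN : ∀ g : Fin N → π, ∀ i j,
      res ((List.ofFn fun t => (ρ (g t) : Matrix (Fin n) (Fin n) A) - 1).prod i j) = 0) :
    ∀ g : Fin n → π, (List.ofFn fun t => (ρ (g t) : Matrix (Fin n) (Fin n) A) - 1).prod = 0 := by
  classical
  set p : κ[X] := ((ρ F : Matrix (Fin n) (Fin n) A).map res).charpoly with hp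
  let κ' := p.SplittingField
  have : Algebra.IsAlgebraic κ κ' := inferInstance
  let ι : κ' →ₐ[κ] K := IsAlgClosed.lift
  obtain ⟨P, res', hr1, hr2, hr3, hr4⟩ := exists_ext hres hk κ'
  let τ : Matrix (Fin n) (Fin n) A →+* Matrix (Fin n) (Fin n) (AdjoinRoot P) :=
    (AdjoinRoot.of P).mapMatrix
  let ρ' : Γ →* (Matrix (Fin n) (Fin n) (AdjoinRoot P))ˣ := (Units.map τ.toMonoidHom).comp ρ
  have hρ' : ∀ g, (ρ' g : Matrix (Fin n) (Fin n) (AdjoinRoot P)) = τ (ρ g) := fun g => rfl
  have hτ : Function.Injective τ := by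
    intro M M' h
    ext i j
    exact hr3 (congrFun (congrFun h i) j)
  have hmap : ∀ M : Matrix (Fin n) (Fin n) A, (τ M).map res' =
      (M.map res).map (algebraMap κ κ') := by
    intro M
    ext i j
    exact hr4 _
  have hprodτ : ∀ {m : ℕ} (g : Fin m → π),
      (List.ofFn fun t => (ρ' (g t) : Matrix (Fin n) (Fin n) (AdjoinRoot P)) - 1).prod =
      τ (List.ofFn fun t => (ρ (g t) : Matrix (Fin n) (Fin n) A) - 1).prod := by
    intro m g
    rw [map_list_prod, List.map_ofFn]
    congr 2
    funext t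
    rw [hρ']
    exact (by rw [Function.comp_apply, map_sub, map_one])
  obtain ⟨b, hb⟩ := exists_roots (n := n) (p := p.map (algebraMap κ κ'))
    ((Matrix.charpoly_monic _).map _) (by
      rw [natDegree_map, hp, Matrix.charpoly_natDegree_eq_dim, Fintype.card_fin])
    (SplittingField.splits p)
  have key := fin_split res' hr1 hr2 π ρ' F b (by
      rw [hρ', hmap, Matrix.charpoly_map, ← hp, hb]) (ι ⁻¹' S)
    (fun s c hc1 hc2 hc3 hc4 => by
      refine hS (ι s) (fun g => ι (c g)) ?_ ?_ ?_ ?_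
      · intro g h
        rw [hc1, map_add]
      · intro g h hgh
        rw [hc2 g h]
        change Units.map τ.toMonoidHom (ρ g) = Units.map τ.toMonoidHom (ρ h)
        rw [hgh]
      · intro g h hgh
        rw [hc3 g h hgh, map_mul]
      · obtain ⟨g, hg⟩ := hc4
        exact ⟨g, (map_ne_zero ι).2 hg⟩)
    (fun m u hm1 hm2 hu1 hu2 h => by
      refine hcyc m (fun j => ι (u j)) hm1 hm2 (fun j hj => ?_) (fun j hj => ?_) ?_
      · obtain ⟨i, hi⟩ := hu1 j hj
        have e1 : (p.map (algebraMap κ κ')).IsRoot (u j) := by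
          rw [IsRoot, hb, eval_prod]
          refine Finset.prod_eq_zero (Finset.mem_univ i) ?_
          rw [hi, eval_sub, eval_X, eval_C, sub_self]
        have e2 := e1.map (f := ι.toRingHom)
        rw [Polynomial.map_map] at e2
        have e3 : ι.toRingHom.comp (algebraMap κ κ') = algebraMap κ K := ι.comp_algebraMap
        rw [e3] at e2
        exact e2
      · obtain ⟨s, hs, e1⟩ := hu2 j hj
        exact ⟨ι s, hs, by rw [e1, map_mul]⟩
      · rw [h])
    (N := N) (fun g i j => by
      rw [hprodτ]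
      change res' (AdjoinRoot.of P ((List.ofFn fun t =>
        (ρ (g t) : Matrix (Fin n) (Fin n) A) - 1).prod i j)) = 0
      rw [hr4, hN, map_zero])
  intro g
  apply hτ
  rw [← hprodτ, map_zero]
  have h1 : (List.ofFn fun t => (ρ' (g t) : Matrix (Fin n) (Fin n) (AdjoinRoot P)) - 1).prod ∈
      augm π ρ' ^ n := by
    unfold augm
    rw [Submodule.span_pow]
    refine Submodule.subset_span ?_
    rw [Set.mem_pow]
    exact ⟨fun s => ⟨(ρ' (g s) : Matrix (Fin n) (Fin n) (AdjoinRoot P)) - 1, ⟨g s, rfl⟩⟩, rfl⟩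
  rw [key] at h1
  exact h1

end Pool.Agent.H853.RU
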