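import Pool.Agent.H853.RU.Bur

/-!
# Consequences for semisimple and irreducible representations
-/

set_option autoImplicit false

namespace Pool.Agent.H853.RU

open Module Polynomial Matrix

/-- A normal subgroup acting unipotently acts trivially in a semisimple representation. -/
theorem trivial_of_semisimple {A Λ : Type*} [CommRing A] [Field Λ] [Algebra A Λ]
    (hinj : Function.Injective (algebraMap A Λ)) {n N : ℕ} {G : Type*} [Group G] (H : Subgroup G)
    [hH : H.Normal] (ρ : G →* (Matrix (Fin n) (Fin n) A)ˣ)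
    (hnil : ∀ g : Fin N → H, (List.ofFn fun t => (ρ (g t) : Matrix (Fin n) (Fin n) A) - 1).prod = 0)
    (hss : ∀ W : Submodule Λ (Fin n → Λ),
      (∀ g, ∀ w ∈ W, ((ρ g : Matrix (Fin n) (Fin n) A).map (algebraMap A Λ)) *ᵥ w ∈ W) →
      ∃ W' : Submodule Λ (Fin n → Λ), IsCompl W W' ∧
        ∀ g, ∀ w ∈ W', ((ρ g : Matrix (Fin n) (Fin n) A).map (algebraMap A Λ)) *ᵥ w ∈ W')
    (g : H) : ρ g = 1 := by
  classical
  -- the representation over the field
  let r : G →* Matrix (Fin n) (Fin n) Λ :=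
    (((algebraMap A Λ).mapMatrix : Matrix (Fin n) (Fin n) A →+* Matrix (Fin n) (Fin n) Λ) :
      Matrix (Fin n) (Fin n) A →* Matrix (Fin n) (Fin n) Λ).comp
      ((Units.coeHom (Matrix (Fin n) (Fin n) A)).comp ρ)
  have hr : ∀ g, r g = (ρ g : Matrix (Fin n) (Fin n) A).map (algebraMap A Λ) := fun g => rfl
  have hnil' : ∀ l : List H, l.length = N →
      (l.map fun g : H => r (g : G) - 1).prod = 0 := by
    intro l hl
    subst hl
    have h1 := hnil l.get
    have h2 : (List.ofFn fun t => (ρ (l.get t) : Matrix (Fin n) (Fin n) A) - 1) =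
        l.map fun g : H => (ρ g : Matrix (Fin n) (Fin n) A) - 1 := by
      conv_rhs => rw [← List.ofFn_get l]
      rw [List.map_ofFn]
      rfl
    rw [h2] at h1
    have h3 := congrArg (algebraMap A Λ).mapMatrix h1
    rw [map_zero, map_list_prod, List.map_map] at h3
    rw [← h3]
    congr 1
    refine List.map_congr_left fun g _ => ?_
    change r g - 1 = (algebraMap A Λ).mapMatrix ((ρ g : Matrix (Fin n) (Fin n) A) - 1)
    rw [map_sub, map_one]
    rfl
  let W : Submodule Λ (Fin n → Λ) :=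
    { carrier := {w | ∀ h : H, r (h : G) *ᵥ w = w}
      add_mem' := fun {a b} ha hb h => by rw [Matrix.mulVec_add, ha h, hb h]
      zero_mem' := fun h => by rw [Matrix.mulVec_zero]
      smul_mem' := fun c w hw h => by rw [Matrix.mulVec_smul, hw h] }
  have hW : ∀ w, w ∈ W ↔ ∀ h : H, r (h : G) *ᵥ w = w := fun w => Iff.rfl
  obtain ⟨W', hcompl, hW'⟩ := hss W (fun g w hw => by
    rw [hW] at hw ⊢
    intro h
    rw [← hr]
    have h1 : (h : G) * g = g * (g⁻¹ * h * g) := by group
    rw [Matrix.mulVec_mulVec, ← map_mul, h1, map_mul, ← Matrix.mulVec_mulVec]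
    have h2 : g⁻¹ * h * g ∈ H := by
      have h3 := hH.conj_mem h h.2 g⁻¹
      rwa [inv_inv] at h3
    rw [hw ⟨_, h2⟩])
  -- the complement is zero
  have hW'0 : W' = ⊥ := by
    by_contra hne
    obtain ⟨w, hw, hw0⟩ := (Submodule.ne_bot_iff _).1 hne
    -- the largest length with a nonzero value
    have hex : ∃ m : ℕ, ∀ l : List H, l.length = m →
        (l.map fun g : H => r (g : G) - 1).prod *ᵥ w = 0 :=
      ⟨N, fun l hl => by rw [hnil' l hl, Matrix.zero_mulVec]⟩
    set m := Nat.find hex with hm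
    have hm0 : m ≠ 0 := by
      intro h0
      have h1 := Nat.find_spec hex
      rw [← hm, h0] at h1
      have h2 := h1 [] rfl
      rw [List.map_nil, List.prod_nil, Matrix.one_mulVec] at h2
      exact hw0 h2
    obtain ⟨m', hm'⟩ := Nat.exists_eq_succ_of_ne_zero hm0
    have h1 := Nat.find_min hex (m := m') (by rw [← hm]; omega)
    push Not at h1
    obtain ⟨l, hl, hlw⟩ := h1
    set v := (l.map fun g : H => r (g : G) - 1).prod *ᵥ w with hv
    have hvW : v ∈ W := by
      rw [hW]
      intro h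
      have h2 := Nat.find_spec hex (h :: l) (by rw [List.length_cons, hl, ← hm, hm'])
      rw [List.map_cons, List.prod_cons, ← Matrix.mulVec_mulVec, Matrix.sub_mulVec,
        Matrix.one_mulVec, sub_eq_zero] at h2
      exact h2
    have hvW' : v ∈ W' := by
      have h2 : ∀ l : List H, (l.map fun g : H => r (g : G) - 1).prod *ᵥ w ∈ W' := by
        intro l
        induction l with
        | nil => rw [List.map_nil, List.prod_nil, Matrix.one_mulVec]; exact hw
        | cons a l ih =>
          rw [List.map_cons, List.prod_cons, ← Matrix.mulVec_mulVec, Matrix.sub_mulVec,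
            Matrix.one_mulVec]
          exact Submodule.sub_mem _ (hW' _ _ ih) ih
      exact h2 l
    have h3 := hcompl.disjoint
    rw [Submodule.disjoint_def] at h3
    exact hlw (h3 v hvW hvW')
  have hWtop : W = ⊤ := by
    have h1 := hcompl.sup_eq_top
    rw [hW'0, sup_bot_eq] at h1
    exact h1
  have h1 : r (g : G) = 1 := by
    apply Matrix.ext_of_mulVec_single
    intro i
    have h2 : Pi.single i (1 : Λ) ∈ W := by
      rw [hWtop]
      trivial
    rw [Matrix.one_mulVec]
    exact h2 g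
  apply Units.ext
  apply Matrix.map_injective hinj
  change (ρ g : Matrix (Fin n) (Fin n) A).map (algebraMap A Λ) =
    ((1 : Matrix (Fin n) (Fin n) A)).map (algebraMap A Λ)
  rw [← hr, h1, Matrix.map_one _ (map_zero _) (map_one _)]

/-- powers of elements of a finite-by-abelian group are central -/
theorem pow_central {G : Type*} [Group G] (P : Subgroup G) [hP : P.Normal] [Finite P]
    (hab : ∀ g h : G, g * h * g⁻¹ * h⁻¹ ∈ P) (g h : G) :
    g ^ (Nat.card (MulAut P) * Nat.card P) * h = h * g ^ (Nat.card (MulAut P) * Nat.card P) := by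
  set z := g ^ Nat.card (MulAut P) with hz
  have h1 : ∀ c ∈ P, z * c = c * z := by
    intro c hc
    have h2 : MulAut.conjNormal (H := P) z = 1 := by
      rw [hz, map_pow]
      exact pow_card_eq_one'
    have h3 := congrArg (fun f : MulAut P => ((f ⟨c, hc⟩ : P) : G)) h2
    rw [MulAut.conjNormal_apply] at h3
    change z * c * z⁻¹ = c at h3
    rw [mul_inv_eq_iff_eq_mul] at h3
    exact h3
  set c := z * h * z⁻¹ * h⁻¹ with hc
  have hcP : c ∈ P := hab z h
  have h2 : z * h = c * h * z := by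
    rw [hc]
    group
  have h3 : ∀ j : ℕ, z ^ j * h = c ^ j * h * z ^ j := by
    intro j
    induction j with
    | zero => rw [pow_zero, pow_zero, one_mul, mul_one]
    | succ j ih =>
      have h4 : z * c ^ j = c ^ j * z := h1 _ (P.pow_mem hcP j)
      calc z ^ (j + 1) * h = z * (z ^ j * h) := by rw [pow_succ', mul_assoc]
        _ = z * (c ^ j * h * z ^ j) := by rw [ih]
        _ = (z * c ^ j) * h * z ^ j := by simp only [mul_assoc]
        _ = c ^ j * (z * h) * z ^ j := by rw [h4]; simp only [mul_assoc]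
        _ = c ^ j * (c * h * z) * z ^ j := by rw [h2]
        _ = c ^ (j + 1) * h * z ^ (j + 1) := by
          rw [pow_succ, pow_succ']
          simp only [mul_assoc]
  have h4 : c ^ Nat.card P = 1 := by
    have h5 : (⟨c, hcP⟩ : P) ^ Nat.card P = 1 := pow_card_eq_one'
    exact congrArg Subtype.val h5
  have h5 := h3 (Nat.card P)
  rw [h4, one_mul] at h5
  rw [pow_mul]
  exact h5

/-- Irreducible representations with finite image of `π`, commutative `Γ / π` and finite
determinant have finite image. -/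
theorem finite_range {A Λ : Type*} [CommRing A] [Field Λ] [IsAlgClosed Λ] [Algebra A Λ]
    (hinj : Function.Injective (algebraMap A Λ)) {n : ℕ} {Γ : Type*} [Group Γ] (π : Subgroup Γ)
    [hπ : π.Normal] (ρ : Γ →* (Matrix (Fin n) (Fin n) A)ˣ)
    (hfin : (Set.range fun g : π => ρ g).Finite)
    (hab : ∀ g h : Γ, g * h * g⁻¹ * h⁻¹ ∈ π) (hn : n ≠ 0)
    (hirr : ∀ W : Submodule Λ (Fin n → Λ),
      (∀ g, ∀ w ∈ W, ((ρ g : Matrix (Fin n) (Fin n) A).map (algebraMap A Λ)) *ᵥ w ∈ W) →
      W = ⊥ ∨ W = ⊤) {M : ℕ} (hM : M ≠ 0)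
    (hdet : ∀ g, (ρ g : Matrix (Fin n) (Fin n) A).det ^ M = 1) : (Set.range ρ).Finite := by
  classical
  have : Nonempty (Fin n) := ⟨⟨0, Nat.pos_of_ne_zero hn⟩⟩
  let r : Γ →* Matrix (Fin n) (Fin n) Λ :=
    (((algebraMap A Λ).mapMatrix : Matrix (Fin n) (Fin n) A →+* Matrix (Fin n) (Fin n) Λ) :
      Matrix (Fin n) (Fin n) A →* Matrix (Fin n) (Fin n) Λ).comp
      ((Units.coeHom (Matrix (Fin n) (Fin n) A)).comp ρ)
  have hr : ∀ g, r g = (ρ g : Matrix (Fin n) (Fin n) A).map (algebraMap A Λ) := fun g => rfl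
  let P : Subgroup ρ.range := π.map ρ.rangeRestrict
  have hP : P.Normal := hπ.map _ ρ.rangeRestrict_surjective
  have hPfin : Finite P := by
    have h1 : ((P : Set ρ.range)).Finite := by
      refine Set.Finite.of_finite_image (f := fun x : ρ.range => (x : (Matrix (Fin n) (Fin n) A)ˣ))
        (hfin.subset ?_) Subtype.val_injective.injOn
      rintro _ ⟨_, ⟨g, hg, rfl⟩, rfl⟩
      exact ⟨⟨g, hg⟩, rfl⟩
    exact h1
  have habG : ∀ g h : ρ.range, g * h * g⁻¹ * h⁻¹ ∈ P := by
    rintro ⟨_, g, rfl⟩ ⟨_, h, rfl⟩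
    refine ⟨g * h * g⁻¹ * h⁻¹, hab g h, ?_⟩
    apply Subtype.ext
    change ρ (g * h * g⁻¹ * h⁻¹) = ρ g * ρ h * (ρ g)⁻¹ * (ρ h)⁻¹
    rw [map_mul, map_mul, map_mul, map_inv, map_inv]
  set q := Nat.card (MulAut P) * Nat.card P with hq
  have hq0 : 0 < q := Nat.mul_pos Nat.card_pos Nat.card_pos
  have hcomm : ∀ g h : Γ, r g ^ q * r h = r h * r g ^ q := by
    intro g h
    have h1 := pow_central P habG ⟨ρ g, g, rfl⟩ ⟨ρ h, h, rfl⟩
    have h2 : ρ g ^ q * ρ h = ρ h * ρ g ^ q := congrArg Subtype.val h1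
    rw [← map_pow, ← map_mul, ← map_mul]
    rw [← map_pow, ← map_mul, ← map_mul] at h2
    rw [hr, hr, h2]
  have hscal : ∀ g, ∃ c : Λ, r g ^ q = Matrix.scalar (Fin n) c := by
    intro g
    obtain ⟨c, hc⟩ := Module.End.exists_eigenvalue (K := Λ) (V := Fin n → Λ)
      (Matrix.toLin' (r g ^ q))
    have h1 := hirr (Module.End.eigenspace (Matrix.toLin' (r g ^ q)) c) (by
      intro h w hw
      rw [Module.End.mem_eigenspace_iff, Matrix.toLin'_apply] at hw ⊢
      change (r g ^ q) *ᵥ (r h *ᵥ w) = c • (r h *ᵥ w)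
      rw [Matrix.mulVec_mulVec, hcomm, ← Matrix.mulVec_mulVec, hw, Matrix.mulVec_smul])
    rcases h1 with h1 | h1
    · exact (hc h1).elim
    · refine ⟨c, ?_⟩
      apply Matrix.ext_of_mulVec_single
      intro i
      have h2 : Pi.single i (1 : Λ) ∈ Module.End.eigenspace (Matrix.toLin' (r g ^ q)) c := by
        rw [h1]
        trivial
      rw [Module.End.mem_eigenspace_iff, Matrix.toLin'_apply] at h2
      rw [h2, Matrix.scalar_apply]
      ext j
      rw [Matrix.mulVec_diagonal, Pi.smul_apply, smul_eq_mul]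
  have hexp : ∀ g, r g ^ (q * (n * M)) = 1 := by
    intro g
    obtain ⟨c, hc⟩ := hscal g
    have h1 : (r g).det ^ M = 1 := by
      have h2 := congrArg (algebraMap A Λ) (hdet g)
      rw [map_pow, map_one, RingHom.map_det] at h2
      exact h2
    have h2 : c ^ (n * M) = 1 := by
      have h3 : (r g ^ q).det ^ M = 1 := by
        rw [Matrix.det_pow, ← pow_mul, mul_comm, pow_mul, h1, one_pow]
      rw [hc, Matrix.scalar_apply, Matrix.det_diagonal, Finset.prod_const, Finset.card_univ,
        Fintype.card_fin, ← pow_mul] at h3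
      exact h3
    rw [pow_mul, hc, ← map_pow, h2, map_one]
  have h1 := burnside hn (MonoidHom.mrange r) (by
    intro W hW
    exact hirr W fun g w hw => hW (r g) ⟨g, rfl⟩ w hw) (e := q * (n * M))
    (Nat.mul_pos hq0 (Nat.mul_pos (Nat.pos_of_ne_zero hn) (Nat.pos_of_ne_zero hM)))
    (by
      rintro _ ⟨g, rfl⟩
      exact hexp g)
  refine Set.Finite.of_finite_image (f := fun x : (Matrix (Fin n) (Fin n) A)ˣ =>
    (x : Matrix (Fin n) (Fin n) A).map (algebraMap A Λ)) (h1.subset ?_) ?_
  · rintro _ ⟨_, ⟨g, rfl⟩, rfl⟩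
    exact ⟨g, rfl⟩
  · intro x _ y _ hxy
    exact Units.ext (Matrix.map_injective hinj hxy)

end Pool.Agent.H853.RU
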