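import Pool.Agent.H853.RU.Adic
import Pool.Agent.H853.RU.Concl

/-!
# Galois groups of function fields
-/

set_option autoImplicit false

namespace Pool.Agent.H853.RU

open Module Polynomial Matrix IsLocalRing

/-- commutators act trivially on the constants -/
theorem comm_fix {k R : Type} [Field k] [Finite k] [CommRing R] [IsDomain R] [Algebra k R]
    (g h : Gal(SeparableClosure (FractionRing R)/FractionRing R))
    (x : SeparableClosure (FractionRing R)) (hx : IsAlgebraic k x) :
    (g * h * g⁻¹ * h⁻¹) x = x := by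
  classical
  have tower : IsScalarTower k (FractionRing R) (SeparableClosure (FractionRing R)) :=
    inferInstance
  let _ : Fintype k := Fintype.ofFinite k
  let E : IntermediateField k (SeparableClosure (FractionRing R)) :=
    IntermediateField.adjoin k {x}
  have : FiniteDimensional k E := IntermediateField.adjoin.finiteDimensional hx.isIntegral
  have : Finite E := Module.finite_of_finite k
  have : IsGalois k E := inferInstance
  have : IsCyclic Gal(E/k) := inferInstance
  let r : Gal(SeparableClosure (FractionRing R)/FractionRing R) →* Gal(E/k) :=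
    (AlgEquiv.restrictNormalHom E).comp
      (MonoidHom.mk' (fun σ : Gal(SeparableClosure (FractionRing R)/FractionRing R) =>
        (σ.restrictScalars k : SeparableClosure (FractionRing R) ≃ₐ[k]
          SeparableClosure (FractionRing R))) (fun a b => rfl))
  have hr : ∀ (σ : Gal(SeparableClosure (FractionRing R)/FractionRing R)) (x : E),
      ((r σ x : E) : SeparableClosure (FractionRing R)) =
        σ (x : SeparableClosure (FractionRing R)) := by
    intro σ x
    exact AlgEquiv.restrictNormal_commutes (σ.restrictScalars k :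
      SeparableClosure (FractionRing R) ≃ₐ[k] SeparableClosure (FractionRing R)) E x
  have h1 : r (g * h * g⁻¹ * h⁻¹) = 1 := by
    rw [map_mul, map_mul, map_mul, map_inv, map_inv]
    let _ : CommGroup Gal(E/k) := IsCyclic.commGroup
    rw [mul_comm (r g) (r h), mul_assoc (r h), mul_inv_cancel, mul_one, mul_inv_cancel]
  have h2 := hr (g * h * g⁻¹ * h⁻¹) ⟨x, IntermediateField.mem_adjoin_simple_self k x⟩
  rw [h1] at h2
  exact h2.symm

theorem quot_finite (R : Type) [CommRing R] [IsDomain R]
    (Γ : Subgroup Gal(SeparableClosure (FractionRing R)/FractionRing R))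
    (h : IsOpen (Γ : Set Gal(SeparableClosure (FractionRing R)/FractionRing R))) :
    Finite (Gal(SeparableClosure (FractionRing R)/FractionRing R) ⧸ Γ) :=
  Subgroup.quotient_finite_of_isOpen Γ h

/-- the constants are stable -/
theorem alg_stable {k R : Type} [Field k] [CommRing R] [IsDomain R] [Algebra k R]
    (h : Gal(SeparableClosure (FractionRing R)/FractionRing R))
    (x : SeparableClosure (FractionRing R)) (hx : IsAlgebraic k x) : IsAlgebraic k (h x) := by
  have tower : IsScalarTower k (FractionRing R) (SeparableClosure (FractionRing R)) :=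
    inferInstance
  exact hx.algHom (h.restrictScalars k : SeparableClosure (FractionRing R) ≃ₐ[k]
    SeparableClosure (FractionRing R)).toAlgHom

/-- An irreducible representation with commutative image over an algebraically closed field. -/
theorem irr_comm {A Λ : Type*} [CommRing A] [Field Λ] [IsAlgClosed Λ] [Algebra A Λ]
    {n : ℕ} {G : Type*} [Group G] (ρ : G →* (Matrix (Fin n) (Fin n) A)ˣ)
    (hcomm : ∀ g h, ρ g * ρ h = ρ h * ρ g) (hn : n ≠ 0)
    (hirr : ∀ W : Submodule Λ (Fin n → Λ),
      (∀ g, ∀ w ∈ W, ((ρ g : Matrix (Fin n) (Fin n) A).map (algebraMap A Λ)) *ᵥ w ∈ W) →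
      W = ⊥ ∨ W = ⊤) : n = 1 := by
  classical
  set r : G → Matrix (Fin n) (Fin n) Λ := fun g =>
    (ρ g : Matrix (Fin n) (Fin n) A).map (algebraMap A Λ) with hr
  have hrc : ∀ g h, r g * r h = r h * r g := by
    intro g h
    rw [hr]
    simp only []
    rw [← Matrix.map_mul, ← Matrix.map_mul, ← Units.val_mul, ← Units.val_mul, hcomm]
  have : Nonempty (Fin n) := ⟨⟨0, Nat.pos_of_ne_zero hn⟩⟩
  -- all matrices are scalar
  have hscal : ∀ g, ∃ c : Λ, ∀ w, r g *ᵥ w = c • w := by
    intro g
    obtain ⟨c, hc⟩ := Module.End.exists_eigenvalue (K := Λ) (V := Fin n → Λ) (Matrix.toLin' (r g))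
    have h1 := hirr (Module.End.eigenspace (Matrix.toLin' (r g)) c) (by
      intro h w hw
      rw [Module.End.mem_eigenspace_iff, Matrix.toLin'_apply] at hw ⊢
      change r g *ᵥ (r h *ᵥ w) = c • (r h *ᵥ w)
      rw [Matrix.mulVec_mulVec, hrc, ← Matrix.mulVec_mulVec, hw, Matrix.mulVec_smul])
    rcases h1 with h1 | h1
    · exact (hc h1).elim
    · refine ⟨c, fun w => ?_⟩
      have h2 : w ∈ Module.End.eigenspace (Matrix.toLin' (r g)) c := by
        rw [h1]
        trivial
      rw [Module.End.mem_eigenspace_iff, Matrix.toLin'_apply] at h2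
      exact h2
  let i0 : Fin n := ⟨0, Nat.pos_of_ne_zero hn⟩
  let v0 : Fin n → Λ := Pi.single i0 1
  have h1 := hirr (Submodule.span Λ {v0}) (by
    intro g w hw
    obtain ⟨c, hc⟩ := hscal g
    change r g *ᵥ w ∈ _
    rw [hc]
    exact Submodule.smul_mem _ _ hw)
  have hv0 : v0 ≠ 0 := by
    intro h3
    have h4 : v0 i0 = 0 := by rw [h3]; rfl
    have h5 : v0 i0 = 1 := Pi.single_eq_same i0 1
    rw [h5] at h4
    exact one_ne_zero h4
  have h2 : Submodule.span Λ {v0} ≠ ⊥ := by
    rw [Ne, Submodule.span_singleton_eq_bot]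
    exact hv0
  have h3 := h1.resolve_left h2
  have h4 : Module.finrank Λ (Submodule.span Λ {v0}) = 1 := finrank_span_singleton hv0
  rw [h3, finrank_top, Module.finrank_fin_fun] at h4
  exact h4

/-- a continuous representation is locally constant modulo the powers of the maximal ideal -/
theorem open_level {A : Type*} [CommRing A] [IsLocalRing A] [TopologicalSpace A]
    (hA : IsAdic (maximalIdeal A)) {n : ℕ} {G : Type*} [Group G] [TopologicalSpace G]
    (ρ : G →* (Matrix (Fin n) (Fin n) A)ˣ) (hρ : Continuous ρ) (k : ℕ) :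
    ∃ U : Subgroup G, IsOpen (U : Set G) ∧ ∀ g ∈ U, ∀ i j,
      (ρ g : Matrix (Fin n) (Fin n) A) i j - (1 : Matrix (Fin n) (Fin n) A) i j ∈
        maximalIdeal A ^ k := by
  let τ : Matrix (Fin n) (Fin n) A →+* Matrix (Fin n) (Fin n) (A ⧸ maximalIdeal A ^ k) :=
    (Ideal.Quotient.mk (maximalIdeal A ^ k)).mapMatrix
  have hmem : ∀ g, g ∈ ((Units.map τ.toMonoidHom).comp ρ).ker ↔ ∀ i j,
      (ρ g : Matrix (Fin n) (Fin n) A) i j - (1 : Matrix (Fin n) (Fin n) A) i j ∈
        maximalIdeal A ^ k := by
    intro g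
    rw [MonoidHom.mem_ker]
    constructor
    · intro h i j
      have h1 : τ (ρ g : Matrix (Fin n) (Fin n) A) = τ 1 := by
        rw [map_one]
        exact congrArg Units.val h
      exact Ideal.Quotient.eq.1 (congrFun (congrFun h1 i) j)
    · intro h
      apply Units.ext
      change τ (ρ g : Matrix (Fin n) (Fin n) A) = 1
      rw [← map_one τ]
      ext i j
      exact Ideal.Quotient.eq.2 (h i j)
  refine ⟨((Units.map τ.toMonoidHom).comp ρ).ker, ?_, fun g hg => (hmem g).1 hg⟩
  have h1 : ((((Units.map τ.toMonoidHom).comp ρ).ker : Subgroup G) : Set G) =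
      ⋂ i : Fin n, ⋂ j : Fin n, (fun g => (ρ g : Matrix (Fin n) (Fin n) A) i j) ⁻¹'
        ((fun a => a - (1 : Matrix (Fin n) (Fin n) A) i j) ⁻¹'
          ((maximalIdeal A ^ k : Ideal A) : Set A)) := by
    ext g
    rw [Set.mem_iInter]
    simp only [Set.mem_iInter, Set.mem_preimage, SetLike.mem_coe]
    exact hmem g
  rw [h1]
  refine isOpen_iInter_of_finite fun i => isOpen_iInter_of_finite fun j => ?_
  have h2 : Continuous fun g => (ρ g : Matrix (Fin n) (Fin n) A) i j :=
    (Units.continuous_val.comp hρ).matrix_elem i j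
  refine IsOpen.preimage h2 (isOpen_iff_mem_nhds.2 fun a ha => ?_)
  refine (hA.hasBasis_nhds a).mem_iff.2 ⟨k, trivial, ?_⟩
  rintro _ ⟨y, hy, rfl⟩
  change a + y - (1 : Matrix (Fin n) (Fin n) A) i j ∈ maximalIdeal A ^ k
  rw [add_sub_right_comm]
  exact add_mem ha hy

end Pool.Agent.H853.RU
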