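import Pool.Agent.H853.RU.Mat

/-!
# The action of eigenmatrices on eigenvectors
-/

set_option autoImplicit false

namespace Pool.Agent.H853.RU

open Module Polynomial

variable {A κ : Type*} [CommRing A] [Field κ] {n : ℕ}

/-- conjugation -/
noncomputable def conj (f f' : Matrix (Fin n) (Fin n) A) : End A (Matrix (Fin n) (Fin n) A) :=
  LinearMap.mulLeft A f * LinearMap.mulRight A f'

theorem conj_apply (f f' x : Matrix (Fin n) (Fin n) A) : conj f f' x = f * x * f' := by
  change f * (x * f') = _
  rw [mul_assoc]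

theorem conj_mul {f f' : Matrix (Fin n) (Fin n) A} (h2 : f' * f = 1)
    (x y : Matrix (Fin n) (Fin n) A) : conj f f' (x * y) = conj f f' x * conj f f' y := by
  rw [conj_apply, conj_apply, conj_apply]
  calc f * (x * y) * f' = f * x * 1 * y * f' := by simp only [mul_assoc, mul_one]
    _ = f * x * (f' * f) * y * f' := by rw [h2]
    _ = _ := by simp only [mul_assoc]

/-- matrices of weight `s` send vectors of weight `b` to vectors of weight `s b` -/
theorem act_mem {f f' : Matrix (Fin n) (Fin n) A} (h2 : f' * f = 1) {s b : A}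
    {y : Matrix (Fin n) (Fin n) A} {v : Fin n → A} (hy : y ∈ (conj f f').maxGenEigenspace s)
    (hv : v ∈ Module.End.maxGenEigenspace (Matrix.mulVecLin f) b) :
    y.mulVec v ∈ Module.End.maxGenEigenspace (Matrix.mulVecLin f) (s * b) := by
  rw [mem_ge] at hy hv ⊢
  obtain ⟨p, hp⟩ := hy
  obtain ⟨q, hq⟩ := hv
  set σ := conj f f' with hσ
  set F : End A (Fin n → A) := Matrix.mulVecLin f with hF
  have key : ∀ m p q : ℕ, p + q ≤ m → ∀ (y : Matrix (Fin n) (Fin n) A) (v : Fin n → A),
      ((σ - s • 1) ^ p) y = 0 → ((F - b • 1) ^ q) v = 0 →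
      ((F - (s * b) • 1) ^ (p + q)) (y.mulVec v) = 0 := by
    intro m
    induction m with
    | zero =>
      intro p q hpq y v hy hv
      have hp0 : p = 0 := by omega
      subst hp0
      have hy0 : y = 0 := hy
      rw [hy0, Matrix.zero_mulVec, map_zero]
    | succ m ih =>
      intro p q hpq y v hy hv
      rcases p with _ | p
      · have hy0 : y = 0 := hy
        rw [hy0, Matrix.zero_mulVec, map_zero]
      rcases q with _ | q
      · have hv0 : v = 0 := hv
        rw [hv0, Matrix.mulVec_zero, map_zero]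
      have h3 : (F - (s * b) • 1) (y.mulVec v) =
          ((σ - s • 1) y).mulVec (F v) + s • y.mulVec ((F - b • 1) v) := by
        have h4 : ∀ w, F w = f.mulVec w := fun w => rfl
        simp only [LinearMap.sub_apply, LinearMap.smul_apply, Module.End.one_apply, h4]
        rw [hσ, conj_apply, Matrix.sub_mulVec, Matrix.mulVec_sub, Matrix.mulVec_smul, smul_sub,
          smul_smul, Matrix.smul_mulVec, Matrix.mulVec_mulVec, Matrix.mulVec_mulVec]
        rw [show f * y * f' * f = f * y by rw [mul_assoc, h2, mul_one], Matrix.mulVec_mulVec]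
        abel
      have e1 : p + 1 + (q + 1) = (p + q + 1) + 1 := by omega
      rw [e1, pow_succ, Module.End.mul_apply, h3, map_add, map_smul]
      have h5 : ((F - (s * b) • 1) ^ (p + q + 1)) (((σ - s • 1) y).mulVec (F v)) = 0 := by
        have h6 := ih p (q + 1) (by omega) ((σ - s • 1) y) (F v) (by
          rw [pow_succ, Module.End.mul_apply] at hy
          exact hy) (by
          have c1 : Commute ((F - b • 1) ^ (q + 1)) F := by
            refine Commute.pow_left ?_ _
            exact (Commute.refl F).sub_left ((Commute.one_left F).smul_left b)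
          rw [← Module.End.mul_apply, c1.eq, Module.End.mul_apply, hv, map_zero])
        exact h6
      have h7 : ((F - (s * b) • 1) ^ (p + q + 1)) (y.mulVec ((F - b • 1) v)) = 0 := by
        have h6 := ih (p + 1) q (by omega) y ((F - b • 1) v) hy (by
          rw [pow_succ, Module.End.mul_apply] at hv
          exact hv)
        rw [show p + q + 1 = p + 1 + q by omega]
        exact h6
      rw [h5, h7, smul_zero, add_zero]
  exact ⟨p + q, key (p + q) p q le_rfl y v hp hq⟩

variable {res : A →+* κ}

/-- The weights of `A ^ n` are the residual eigenvalues. -/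
theorem weight_mem (hres : Function.Surjective res) {k : ℕ} (hk : RingHom.ker res ^ k = ⊥)
    {lft : κ → A} (hl : ∀ x, res (lft x) = x) {f : Matrix (Fin n) (Fin n) A} {b : Fin n → κ}
    (hb : (f.map res).charpoly = ∏ i, (X - C (b i))) {t : κ} {v : Fin n → A} (hv0 : v ≠ 0)
    (hv : v ∈ Module.End.maxGenEigenspace (Matrix.mulVecLin f) (lft t)) : t ∈ Set.range b := by
  by_contra ht
  obtain ⟨N, hN⟩ := mem_ge.1 hv
  set G : Matrix (Fin n) (Fin n) A := f - Matrix.scalar (Fin n) (lft t) with hG
  have h1 : res (Matrix.scalar (Fin n) (lft t) - f).det ≠ 0 := by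
    have h2 : res (Matrix.scalar (Fin n) (lft t) - f).det =
        (Matrix.scalar (Fin n) t - f.map res).det := by
      rw [RingHom.map_det]
      congr 1
      ext i j
      simp only [RingHom.mapMatrix_apply, Matrix.map_apply, Matrix.sub_apply, map_sub,
        Matrix.scalar_apply, Matrix.diagonal_apply]
      split_ifs
      · rw [hl]
      · rw [map_zero]
    rw [h2, ← Matrix.eval_charpoly, hb, eval_prod, Finset.prod_ne_zero_iff]
    intro i _
    rw [eval_sub, eval_X, eval_C, sub_ne_zero]
    rintro rfl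
    exact ht ⟨i, rfl⟩
  have h2 : IsUnit G.det := by
    have h3 := unit_of_res hres hk h1
    have h4 : Matrix.scalar (Fin n) (lft t) - f = -G := by rw [hG, neg_sub]
    rw [h4, Matrix.det_neg] at h3
    exact isUnit_of_mul_isUnit_right h3
  have h3 : Function.Injective (Matrix.mulVecLin f - lft t • (1 : End A (Fin n → A))) := by
    have h4 : ∀ w, (Matrix.mulVecLin f - lft t • (1 : End A (Fin n → A))) w = G.mulVec w := by
      intro w
      rw [hG, Matrix.sub_mulVec, LinearMap.sub_apply, LinearMap.smul_apply, Module.End.one_apply,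
        Matrix.mulVecLin_apply]
      congr 1
      rw [Matrix.scalar_apply]
      ext i
      rw [Matrix.mulVec_diagonal, Pi.smul_apply, smul_eq_mul]
    intro w w' hw
    rw [h4, h4] at hw
    exact Matrix.mulVec_injective_of_isUnit ((Matrix.isUnit_iff_isUnit_det _).2 h2) hw
  have h4 : Function.Injective ((Matrix.mulVecLin f - lft t • (1 : End A (Fin n → A))) ^ N) := by
    rw [Module.End.coe_pow]
    exact h3.iterate N
  exact hv0 (h4 (hN.trans (map_zero _).symm))

/-- Paths: the partial products of a nonzero product of eigenmatrices are residual eigenvalues. -/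
theorem path (hres : Function.Surjective res) {k : ℕ} (hk : RingHom.ker res ^ k = ⊥)
    {lft : κ → A} (hl : ∀ x, res (lft x) = x) {f f' : Matrix (Fin n) (Fin n) A}
    (h2 : f' * f = 1) {b : Fin n → κ} (hb : (f.map res).charpoly = ∏ i, (X - C (b i)))
    {S : Set κ} {b₀ : κ} {v : Fin n → A}
    (hv : v ∈ Module.End.maxGenEigenspace (Matrix.mulVecLin f) (lft b₀))
    (L : List (Matrix (Fin n) (Fin n) A))
    (hL : ∀ y ∈ L, ∃ s ∈ S, y ∈ (conj f f').maxGenEigenspace (lft s))
    (hne : L.prod.mulVec v ≠ 0) :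
    ∃ u : ℕ → κ, (∀ j ≤ L.length, u j ∈ Set.range b) ∧
      (∀ j < L.length, ∃ s ∈ S, u (j + 1) = s * u j) ∧
      L.prod.mulVec v ∈ Module.End.maxGenEigenspace (Matrix.mulVecLin f) (lft (u L.length)) := by
  induction L with
  | nil =>
    rw [List.prod_nil, Matrix.one_mulVec] at hne ⊢
    refine ⟨fun _ => b₀, fun j _ => weight_mem hres hk hl hb hne hv, fun j hj => ?_, hv⟩
    rw [List.length_nil] at hj
    omega
  | cons y L ih =>
    rw [List.prod_cons, ← Matrix.mulVec_mulVec] at hne ⊢
    have hne' : L.prod.mulVec v ≠ 0 := by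
      intro h0
      rw [h0, Matrix.mulVec_zero] at hne
      exact hne rfl
    obtain ⟨u, hu1, hu2, hu3⟩ := ih (fun y hy => hL y (List.mem_cons_of_mem _ hy)) hne'
    obtain ⟨s, hs, hys⟩ := hL y List.mem_cons_self
    have h3 := act_mem h2 hys hu3
    have h4 : y.mulVec (L.prod.mulVec v) ∈
        Module.End.maxGenEigenspace (Matrix.mulVecLin f) (lft (s * u L.length)) := by
      refine ge_of_nilp ⟨k, res_eq_zero_pow hk ?_⟩ h3
      rw [map_sub, map_mul, hl, hl, hl, sub_self]
    have h5 := weight_mem hres hk hl hb hne h4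
    obtain ⟨w, hw1, hw2⟩ : ∃ w : ℕ → κ, (∀ j ≤ L.length, w j = u j) ∧
        ∀ j, L.length < j → w j = s * u L.length :=
      ⟨fun j => if j ≤ L.length then u j else s * u L.length, fun j hj => if_pos hj,
        fun j hj => if_neg (by omega)⟩
    refine ⟨w, fun j hj => ?_, fun j hj => ?_, ?_⟩
    · rcases le_or_gt j L.length with h6 | h6
      · rw [hw1 j h6]
        exact hu1 j h6
      · rw [hw2 j h6]
        exact h5
    · rw [List.length_cons] at hj
      rcases Nat.lt_succ_iff_lt_or_eq.1 hj with h6 | h6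
      · obtain ⟨s', hs', h7⟩ := hu2 j h6
        refine ⟨s', hs', ?_⟩
        rw [hw1 _ h6.le, hw1 _ (Nat.succ_le_of_lt h6)]
        exact h7
      · refine ⟨s, hs, ?_⟩
        rw [hw1 _ h6.le, hw2 _ (by omega), h6]
    · rw [List.length_cons, hw2 _ (by omega)]
      exact h4

/-- a sequence with steps in `S` has quotients which are products of elements of `S` -/
theorem steps {S : Set κ} {u : ℕ → κ} {m : ℕ} (hu : ∀ j < m, ∃ s ∈ S, u (j + 1) = s * u j)
    (i : ℕ) (d : ℕ) (hd : i + d ≤ m) :
    ∃ L : List κ, L.length = d ∧ (∀ s ∈ L, s ∈ S) ∧ u (i + d) = L.prod * u i := by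
  induction d with
  | zero => exact ⟨[], rfl, by simp, by simp⟩
  | succ d ih =>
    obtain ⟨L, hL1, hL2, hL3⟩ := ih (by omega)
    obtain ⟨s, hs, h1⟩ := hu (i + d) (by omega)
    refine ⟨s :: L, by rw [List.length_cons, hL1], ?_, ?_⟩
    · intro t ht
      rcases List.mem_cons.1 ht with rfl | ht
      · exact hs
      · exact hL2 t ht
    · rw [← add_assoc, h1, hL3, List.prod_cons, mul_assoc]

/-- Products of `n` eigenmatrices with weights in `S` are zero. -/
theorem prod_zero (hres : Function.Surjective res) {k : ℕ} (hk : RingHom.ker res ^ k = ⊥)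
    {lft : κ → A} (hl : ∀ x, res (lft x) = x) {f f' : Matrix (Fin n) (Fin n) A}
    (h2 : f' * f = 1) {b : Fin n → κ}
    (hb : (f.map res).charpoly = ∏ i, (X - C (b i)))
    {S : Set κ} (hcyc : ∀ (m : ℕ) (u : ℕ → κ), 0 < m → m ≤ n → (∀ j ≤ m, u j ∈ Set.range b) →
      (∀ j < m, ∃ s ∈ S, u (j + 1) = s * u j) → u m ≠ u 0)
    (L : List (Matrix (Fin n) (Fin n) A)) (hLn : L.length = n)
    (hL : ∀ y ∈ L, ∃ s ∈ S, y ∈ (conj f f').maxGenEigenspace (lft s)) : L.prod = 0 := by
  classical
  -- it kills all eigenvectors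
  have h3 : ∀ (b₀ : κ) (v : Fin n → A),
      v ∈ Module.End.maxGenEigenspace (Matrix.mulVecLin f) (lft b₀) → L.prod.mulVec v = 0 := by
    intro b₀ v hv
    by_contra hne
    obtain ⟨u, hu1, hu2, -⟩ := path hres hk hl h2 hb hv L hL hne
    have : Nonempty (Fin n) := by
      obtain ⟨i, -⟩ := hu1 0 (Nat.zero_le _)
      exact ⟨i⟩
    choose! w hw using hu1
    -- pigeonhole
    obtain ⟨i, hi, j, hj, hij, hw'⟩ : ∃ i ∈ Finset.range (n + 1), ∃ j ∈ Finset.range (n + 1),
        i ≠ j ∧ w i = w j := by
      refine Finset.exists_ne_map_eq_of_card_lt_of_maps_to (t := (Finset.univ : Finset (Fin n))) ?_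
        (fun _ _ => Finset.mem_univ _)
      rw [Finset.card_univ, Fintype.card_fin, Finset.card_range]
      exact Nat.lt_succ_self n
    have key : ∀ i j : ℕ, i < j → j ≤ n → w i = w j → False := by
      intro i j hij hj hw'
      obtain ⟨d, rfl⟩ := Nat.exists_eq_add_of_le hij.le
      have h4 : u (i + d) = u i := by
        rw [← hw (i + d) (by omega), ← hw i (by omega), hw']
      exact hcyc d (fun t => u (i + t)) (by omega) (by omega)
        (fun t ht => ⟨w (i + t), hw (i + t) (by omega)⟩)
        (fun t ht => hu2 (i + t) (by omega)) h4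
    rw [Finset.mem_range] at hi hj
    rcases lt_or_gt_of_ne hij with h | h
    · exact key i j h (by omega) hw'
    · exact key j i h (by omega) hw'.symm
  -- the eigenvectors span
  have hC : ∀ c ∈ Finset.univ.image fun i => lft (b i), ∀ d ∈ Finset.univ.image fun i => lft (b i),
      c ≠ d → IsUnit (c - d) := by
    refine unit_diff hres hk hl fun c hc => ?_
    obtain ⟨i, -, rfl⟩ := Finset.mem_image.1 hc
    exact ⟨_, rfl⟩
  have hA : aeval f (∏ c ∈ Finset.univ.image fun i => lft (b i), (X - C c) ^ (n * k)) = 0 := by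
    refine annih hk hl f b ?_
    rw [← hb]
    exact Matrix.aeval_self_charpoly _
  have hAF : aeval (Matrix.mulVecLin f : End A (Fin n → A))
      (∏ c ∈ Finset.univ.image fun i => lft (b i), (X - C c) ^ (n * k)) = 0 := by
    have h4 : ∀ P : A[X], aeval (Matrix.mulVecLin f : End A (Fin n → A)) P =
        Matrix.toLinAlgEquiv' (aeval f P) := by
      intro P
      rw [← Polynomial.aeval_algHom_apply]
      rfl
    rw [h4, hA, map_zero]
  have h4 : ∀ v : Fin n → A, L.prod.mulVec v = 0 := by
    intro v
    obtain ⟨y, hy, hyv⟩ := exists_decomp hC hAF ⊤ (fun _ _ => trivial) (x := v) trivial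
    rw [← hyv, Matrix.mulVec_sum]
    refine Finset.sum_eq_zero fun c hc => ?_
    have h5 := (hy c hc).1
    obtain ⟨i, -, rfl⟩ := Finset.mem_image.1 hc
    exact h3 _ _ h5
  apply Matrix.ext_of_mulVec_single
  intro i
  rw [h4, Matrix.zero_mulVec]

end Pool.Agent.H853.RU
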