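import Mathlib

/-!
# Kolchin's theorem over finite fields
-/

set_option autoImplicit false

namespace Pool.Agent.H853.RU

open Matrix

variable {κ : Type*} [Field κ] [Finite κ] {n : ℕ} {G : Type*} [Group G]

/-- the vectors killed by all products of `N` matrices `r g - 1` -/
def killed (r : G →* (Matrix (Fin n) (Fin n) κ)ˣ) (N : ℕ) : Submodule κ (Fin n → κ) where
  carrier := {v | ∀ L : List G, L.length = N →
    (L.map fun g => (r g : Matrix (Fin n) (Fin n) κ) - 1).prod *ᵥ v = 0}
  add_mem' := fun ha hb L hL => by rw [Matrix.mulVec_add, ha L hL, hb L hL, add_zero]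
  zero_mem' := fun L _ => Matrix.mulVec_zero _
  smul_mem' := fun c v hv L hL => by rw [Matrix.mulVec_smul, hv L hL, smul_zero]

omit [Finite κ] in
theorem mem_killed {r : G →* (Matrix (Fin n) (Fin n) κ)ˣ} {N : ℕ} {v : Fin n → κ} :
    v ∈ killed r N ↔ ∀ L : List G, L.length = N →
      (L.map fun g => (r g : Matrix (Fin n) (Fin n) κ) - 1).prod *ᵥ v = 0 := Iff.rfl

omit [Finite κ] in
theorem mem_killed_succ {r : G →* (Matrix (Fin n) (Fin n) κ)ˣ} {N : ℕ} {v : Fin n → κ}
    (h : ∀ g, (r g : Matrix (Fin n) (Fin n) κ) *ᵥ v - v ∈ killed r N) : v ∈ killed r (N + 1) := by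
  intro L hL
  rcases List.eq_nil_or_concat' L with rfl | ⟨L', g, rfl⟩
  · rw [List.length_nil] at hL
    omega
  · rw [List.length_append, List.length_singleton] at hL
    rw [List.map_append, List.prod_append, List.map_singleton, List.prod_singleton,
      ← Matrix.mulVec_mulVec, Matrix.sub_mulVec, Matrix.one_mulVec]
    exact h g L' (by omega)

omit [Finite κ] in
theorem killed_stable {r : G →* (Matrix (Fin n) (Fin n) κ)ˣ} {N : ℕ} {v : Fin n → κ}
    (hv : v ∈ killed r N) (g : G) : (r g : Matrix (Fin n) (Fin n) κ) *ᵥ v ∈ killed r N := by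
  intro L hL
  have key : ∀ (L : List G), (L.map fun g => (r g : Matrix (Fin n) (Fin n) κ) - 1).prod *
      (r g : Matrix (Fin n) (Fin n) κ) = (r g : Matrix (Fin n) (Fin n) κ) *
      ((L.map fun h => g⁻¹ * h * g).map fun g => (r g : Matrix (Fin n) (Fin n) κ) - 1).prod := by
    intro L
    induction L with
    | nil => rw [List.map_nil, List.map_nil, List.map_nil, List.prod_nil, one_mul, mul_one]
    | cons h L ih =>
      rw [List.map_cons, List.prod_cons, mul_assoc, ih, List.map_cons, List.map_cons,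
        List.prod_cons, ← mul_assoc, ← mul_assoc]
      congr 1
      rw [sub_mul, mul_sub, one_mul, mul_one, ← Units.val_mul, ← Units.val_mul, ← map_mul,
        ← map_mul]
      have e1 : h * g = g * (g⁻¹ * h * g) := by group
      rw [e1]
  rw [Matrix.mulVec_mulVec, key, ← Matrix.mulVec_mulVec, hv _ (by rw [List.length_map, hL]),
    Matrix.mulVec_zero]

/-- Kolchin's theorem. -/
theorem kolchin (r : G →* (Matrix (Fin n) (Fin n) κ)ˣ)
    (h : ∀ g, ∃ M : ℕ, ((r g : Matrix (Fin n) (Fin n) κ) - 1) ^ M = 0) :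
    ∃ N, ∀ g : Fin N → G,
      (List.ofFn fun t => (r (g t) : Matrix (Fin n) (Fin n) κ) - 1).prod = 0 := by
  classical
  obtain ⟨p, hp⟩ := CharP.exists κ
  have hpp : p.Prime := CharP.char_is_prime κ p
  have : Fact p.Prime := ⟨hpp⟩
  have : Finite (Fin n → κ) := Pi.finite
  rcases Nat.eq_zero_or_pos n with hn | hn
  · subst hn
    exact ⟨0, fun g => Subsingleton.elim _ _⟩
  have : Nonempty (Fin n) := ⟨⟨0, hn⟩⟩
  have : CharP (Matrix (Fin n) (Fin n) κ) p := inferInstance
  -- the group of matrices is a `p`-group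
  have hP : IsPGroup p r.range := by
    rintro ⟨_, g, rfl⟩
    obtain ⟨M, hM⟩ := h g
    refine ⟨M, ?_⟩
    apply Subtype.ext
    apply Units.ext
    change ((r g : Matrix (Fin n) (Fin n) κ)) ^ (p ^ M) = 1
    have h1 : ((r g : Matrix (Fin n) (Fin n) κ) - 1) ^ (p ^ M) =
        (r g : Matrix (Fin n) (Fin n) κ) ^ (p ^ M) - 1 ^ (p ^ M) :=
      sub_pow_char_pow_of_commute _ _ (Commute.one_right _)
    have h2 : ((r g : Matrix (Fin n) (Fin n) κ) - 1) ^ (p ^ M) = 0 := by
      obtain ⟨d, hd⟩ := Nat.exists_eq_add_of_le (Nat.lt_pow_self hpp.one_lt : M < p ^ M).le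
      rw [hd, pow_add, hM, zero_mul]
    rw [h2, one_pow] at h1
    exact (sub_eq_zero.1 h1.symm)
  have hmono : Monotone (killed r) := by
    refine monotone_nat_of_le_succ fun N v hv L hL => ?_
    cases L with
    | nil => rw [List.length_nil] at hL; omega
    | cons g L =>
      rw [List.length_cons] at hL
      rw [List.map_cons, List.prod_cons, ← Matrix.mulVec_mulVec, hv L (by omega),
        Matrix.mulVec_zero]
  obtain ⟨N, hN⟩ := monotone_stabilizes_iff_noetherian.2
    (inferInstance : IsNoetherian κ (Fin n → κ)) ⟨killed r, hmono⟩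
  have hN' : killed r N = killed r (N + 1) := hN (N + 1) (Nat.le_succ N)
  have htop : killed r N = ⊤ := by
    by_contra hne
    let W := killed r N
    have hW : ∀ g : (Matrix (Fin n) (Fin n) κ)ˣ, g ∈ r.range → W ≤ W.comap (Matrix.mulVecLin g.1) := by
      rintro _ ⟨g, rfl⟩ v hv
      exact killed_stable hv g
    let act : r.range → (((Fin n → κ) ⧸ W) →ₗ[κ] ((Fin n → κ) ⧸ W)) := fun g =>
      W.mapQ W (Matrix.mulVecLin g.1.1) (hW g.1 g.2)
    have hact : ∀ g v, act g (W.mkQ v) = W.mkQ (g.1.1 *ᵥ v) := fun g v => rfl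
    let : MulAction r.range ((Fin n → κ) ⧸ W) :=
      { smul := fun g x => act g x
        one_smul := fun x => by
          obtain ⟨v, rfl⟩ := Submodule.Quotient.mk_surjective W x
          change act 1 (W.mkQ v) = W.mkQ v
          rw [hact]
          change W.mkQ ((1 : Matrix (Fin n) (Fin n) κ) *ᵥ v) = _
          rw [Matrix.one_mulVec]
        mul_smul := fun g h x => by
          obtain ⟨v, rfl⟩ := Submodule.Quotient.mk_surjective W x
          change act (g * h) (W.mkQ v) = act g (act h (W.mkQ v))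
          rw [hact, hact, hact]
          change W.mkQ ((g.1.1 * h.1.1) *ᵥ v) = _
          rw [Matrix.mulVec_mulVec] }
    have hsm : ∀ (g : r.range) (x : (Fin n → κ) ⧸ W), g • x = act g x := fun g x => rfl
    have : Finite ((Fin n → κ) ⧸ W) := Finite.of_surjective _ (Submodule.Quotient.mk_surjective W)
    have hnt : Nontrivial ((Fin n → κ) ⧸ W) := Submodule.Quotient.nontrivial_iff.2 hne
    have hcard : p ∣ Nat.card ((Fin n → κ) ⧸ W) := by
      have h1 : Nat.card ((Fin n → κ) ⧸ W) = Nat.card κ ^ Module.finrank κ ((Fin n → κ) ⧸ W) :=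
        Module.natCard_eq_pow_finrank
      have h2 : p ∣ Nat.card κ := by
        have h3 : ((Nat.card κ : ℕ) : κ) = 0 := by
          let := Fintype.ofFinite κ
          rw [Nat.card_eq_fintype_card]
          exact Nat.cast_card_eq_zero κ
        exact (CharP.cast_eq_zero_iff κ p _).1 h3
      rw [h1]
      exact dvd_pow h2 (Module.finrank_pos.ne')
    obtain ⟨x, hx, hx0⟩ := hP.exists_fixed_point_of_prime_dvd_card_of_fixed_point
      (α := (Fin n → κ) ⧸ W) hcard (a := 0) (by
        intro g
        rw [hsm, map_zero])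
    obtain ⟨v, rfl⟩ := Submodule.Quotient.mk_surjective W x
    have h1 : v ∈ killed r (N + 1) := by
      refine mem_killed_succ fun g => ?_
      have h2 := hx ⟨r g, ⟨g, rfl⟩⟩
      rw [hsm] at h2
      change W.mkQ ((r g : Matrix (Fin n) (Fin n) κ) *ᵥ v) = W.mkQ v at h2
      exact (Submodule.Quotient.eq W).1 h2
    rw [← hN'] at h1
    exact hx0 ((Submodule.Quotient.mk_eq_zero W).2 h1).symm
  refine ⟨N, fun g => ?_⟩
  apply Matrix.ext_of_mulVec_single
  intro i
  have h1 : Pi.single i (1 : κ) ∈ killed r N := by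
    rw [htop]
    trivial
  have h2 := h1 (List.ofFn g) List.length_ofFn
  rw [List.map_ofFn] at h2
  rw [Matrix.zero_mulVec]
  exact h2

end Pool.Agent.H853.RU
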