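import Pool.Agent.H853.RU.Ext
import Pool.Agent.H853.RU.Kol

/-!
# Residually unipotent representations over local rings
-/

set_option autoImplicit false

namespace Pool.Agent.H853.RU

open Module Polynomial IsLocalRing

variable {A : Type*} [CommRing A] [IsLocalRing A] [IsNoetherianRing A] [Finite (ResidueField A)]
  {n : ℕ} {Γ : Type*} [Group Γ]

/-- Residually unipotent representations over local rings. -/
theorem adic (K : Type*) [Field K] [IsAlgClosed K] [Algebra (ResidueField A) K]
    (π : Subgroup Γ) [π.Normal] (ρ : Γ →* (Matrix (Fin n) (Fin n) A)ˣ) (F : Γ) (S : Set K)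
    (hS : ∀ (s : K) (c : π → K), (∀ g h, c (g * h) = c g + c h) →
      (∃ k : ℕ, ∀ g h : π, (∀ i j, (ρ g : Matrix (Fin n) (Fin n) A) i j -
        (ρ h : Matrix (Fin n) (Fin n) A) i j ∈ maximalIdeal A ^ k) → c g = c h) →
      (∀ g h : π, (h : Γ) = F * g * F⁻¹ → c h = s * c g) → (∃ g, c g ≠ 0) → s ∈ S)
    (hcyc : ∀ (m : ℕ) (u : ℕ → K), 0 < m → m ≤ n →
      (∀ j ≤ m, ((((ρ F : Matrix (Fin n) (Fin n) A).map (residue A)).charpoly).map
        (algebraMap (ResidueField A) K)).IsRoot (u j)) →
      (∀ j < m, ∃ s ∈ S, u (j + 1) = s * u j) → u m ≠ u 0)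
    (hU : ∀ g ∈ π, ∃ M : ℕ, ∀ i j,
      (((ρ g : Matrix (Fin n) (Fin n) A) - 1) ^ M) i j ∈ maximalIdeal A) :
    ∀ g : Fin n → π, (List.ofFn fun t => (ρ (g t) : Matrix (Fin n) (Fin n) A) - 1).prod = 0 := by
  classical
  -- Kolchin
  let r : Matrix (Fin n) (Fin n) A →+* Matrix (Fin n) (Fin n) (ResidueField A) :=
    (residue A).mapMatrix
  have hr : ∀ M i j, r M i j = residue A (M i j) := fun M i j => rfl
  obtain ⟨N, hN⟩ := kolchin ((Units.map r.toMonoidHom).comp (ρ.comp π.subtype)) (by
    intro g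
    obtain ⟨M, hM⟩ := hU g g.2
    refine ⟨M, ?_⟩
    change (r (ρ g) - 1) ^ M = 0
    rw [← map_one r, ← map_sub, ← map_pow]
    ext i j
    rw [hr]
    exact (residue_eq_zero_iff _).2 (hM i j))
  have hN' : ∀ (g : Fin N → π) i j,
      residue A ((List.ofFn fun t => (ρ (g t) : Matrix (Fin n) (Fin n) A) - 1).prod i j) = 0 := by
    intro g i j
    have h1 := hN g
    have h2 : (List.ofFn fun t => (((Units.map r.toMonoidHom).comp (ρ.comp π.subtype)) (g t) :
        Matrix (Fin n) (Fin n) (ResidueField A)) - 1).prod =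
        r (List.ofFn fun t => (ρ (g t) : Matrix (Fin n) (Fin n) A) - 1).prod := by
      rw [map_list_prod, List.map_ofFn]
      congr 2
      funext t
      exact (by rw [Function.comp_apply, map_sub, map_one]; rfl)
    rw [h2] at h1
    rw [← hr, h1]
    rfl
  intro g
  have key : ∀ (k : ℕ) i j, (List.ofFn fun t =>
      (ρ (g t) : Matrix (Fin n) (Fin n) A) - 1).prod i j ∈ maximalIdeal A ^ (k + 1) := by
    intro k
    let J : Ideal A := maximalIdeal A ^ (k + 1)
    have hJ : ∀ a ∈ J, residue A a = 0 := fun a ha =>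
      (residue_eq_zero_iff a).2 (Ideal.pow_le_self (Nat.succ_ne_zero k) ha)
    let res : A ⧸ J →+* ResidueField A := Ideal.Quotient.lift J (residue A) hJ
    have hres : ∀ a, res (Ideal.Quotient.mk J a) = residue A a := fun a => rfl
    have hres' : Function.Surjective res := by
      intro x
      obtain ⟨a, rfl⟩ := residue_surjective x
      exact ⟨Ideal.Quotient.mk J a, rfl⟩
    have hker : RingHom.ker res ^ (k + 1) = ⊥ := by
      have h1 : RingHom.ker res ≤ (maximalIdeal A).map (Ideal.Quotient.mk J) := by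
        intro x hx
        obtain ⟨a, rfl⟩ := Ideal.Quotient.mk_surjective x
        rw [RingHom.mem_ker, hres, residue_eq_zero_iff] at hx
        exact Ideal.mem_map_of_mem _ hx
      rw [eq_bot_iff]
      refine (Ideal.pow_right_mono h1 _).trans ?_
      rw [← Ideal.map_pow]
      exact (Ideal.map_quotient_self J).le
    let τ : Matrix (Fin n) (Fin n) A →+* Matrix (Fin n) (Fin n) (A ⧸ J) :=
      (Ideal.Quotient.mk J).mapMatrix
    have hτ : ∀ M i j, τ M i j = Ideal.Quotient.mk J (M i j) := fun M i j => rfl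
    let ρ' : Γ →* (Matrix (Fin n) (Fin n) (A ⧸ J))ˣ := (Units.map τ.toMonoidHom).comp ρ
    have hprodτ : ∀ {m : ℕ} (g : Fin m → π),
        (List.ofFn fun t => (ρ' (g t) : Matrix (Fin n) (Fin n) (A ⧸ J)) - 1).prod =
        τ (List.ofFn fun t => (ρ (g t) : Matrix (Fin n) (Fin n) A) - 1).prod := by
      intro m g
      rw [map_list_prod, List.map_ofFn]
      congr 2
      funext t
      exact (by rw [Function.comp_apply, map_sub, map_one]; rfl)
    have h1 := fin_level K res hres' hker π ρ' F S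
      (fun s c hc1 hc2 hc3 hc4 => by
        refine hS s c hc1 ⟨k + 1, fun g h hgh => hc2 g h ?_⟩ hc3 hc4
        apply Units.ext
        ext i j
        exact (Ideal.Quotient.eq).2 (hgh i j))
      (fun m u hm1 hm2 hu1 hu2 => hcyc m u hm1 hm2 hu1 hu2)
      (N := N) (fun g i j => by
        rw [hprodτ, hτ, hres]
        exact hN' g i j) g
    intro i j
    rw [hprodτ] at h1
    have h2 := congrFun (congrFun h1 i) j
    rw [hτ] at h2
    exact Ideal.Quotient.eq_zero_iff_mem.1 h2
  ext i j
  have h1 : (List.ofFn fun t => (ρ (g t) : Matrix (Fin n) (Fin n) A) - 1).prod i j ∈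
      (⨅ k : ℕ, maximalIdeal A ^ k) := by
    rw [Ideal.mem_iInf]
    intro k
    exact Ideal.pow_le_pow_right (Nat.le_succ k) (key k i j)
  rw [Ideal.iInf_pow_eq_bot_of_isLocalRing _ (maximalIdeal.isMaximal A).ne_top] at h1
  exact h1

end Pool.Agent.H853.RU
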