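import Pool.Agent.H853.RU.Ext

/-!
# Burnside's theorem: irreducible linear groups of bounded exponent are finite
-/

set_option autoImplicit false

namespace Pool.Agent.H853.RU

open Module Polynomial Matrix

variable {Λ : Type*} [Field Λ] [IsAlgClosed Λ] {n : ℕ}

theorem dens {V : Type*} [AddCommGroup V] [Module Λ V] [FiniteDimensional Λ V] [Nontrivial V]
    (B : Subalgebra Λ (Module.End Λ V))
    (hirr : ∀ W : Submodule Λ V, (∀ g ∈ B, ∀ w ∈ W, g w ∈ W) → W = ⊥ ∨ W = ⊤) : B = ⊤ := by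
  classical
  have hsimple : IsSimpleModule B V := by
    refine (isSimpleModule_iff B V).2
      { exists_pair_ne := ⟨⊥, ⊤, bot_ne_top⟩, eq_bot_or_eq_top := ?_ }
    intro W
    let W' : Submodule Λ V := W.restrictScalars Λ
    have h1 := hirr W' (fun g hg w hw => W.smul_mem (⟨g, hg⟩ : B) hw)
    rcases h1 with h1 | h1
    · left
      exact (Submodule.restrictScalars_eq_bot_iff Λ B V).1 h1
    · right
      exact (Submodule.restrictScalars_eq_top_iff Λ B V).1 h1
  rw [eq_top_iff]
  intro M _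
  let f : Module.End (Module.End B V) V :=
    { toFun := fun v => M v
      map_add' := fun v w => map_add M v w
      map_smul' := fun ψ v => by
        obtain ⟨t, rfl⟩ := (IsSimpleModule.algebraMap_end_bijective_of_isAlgClosed
          (A := B) (V := V) Λ).2 ψ
        change M (t • v) = t • (M v)
        rw [map_smul] }
  obtain ⟨s, hs⟩ := (Module.Finite.fg_top (R := Λ) (M := V))
  obtain ⟨r, hr⟩ := jacobson_density f s
  have h1 : M = (r : Module.End Λ V) := by
    refine LinearMap.ext_on (s := (s : Set V)) hs ?_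
    intro v hv
    exact hr v hv
  rw [h1]
  exact r.2

theorem span_top (hn : n ≠ 0) (G : Submonoid (Matrix (Fin n) (Fin n) Λ))
    (hirr : ∀ W : Submodule Λ (Fin n → Λ), (∀ g ∈ G, ∀ w ∈ W, g *ᵥ w ∈ W) → W = ⊥ ∨ W = ⊤) :
    Submodule.span Λ (G : Set (Matrix (Fin n) (Fin n) Λ)) = ⊤ := by
  classical
  have : Nonempty (Fin n) := ⟨⟨0, Nat.pos_of_ne_zero hn⟩⟩
  let φ : Matrix (Fin n) (Fin n) Λ ≃ₐ[Λ] Module.End Λ (Fin n → Λ) := Matrix.toLinAlgEquiv'
  have h1 := dens (V := Fin n → Λ) ((Algebra.adjoin Λ (G : Set _)).map φ.toAlgHom) (by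
    intro W hW
    refine hirr W fun g hg w hw => ?_
    exact hW (φ g) ⟨g, Algebra.subset_adjoin hg, rfl⟩ w hw)
  rw [← Submonoid.closure_eq G, ← Algebra.adjoin_eq_span, eq_top_iff]
  intro M _
  rw [Subalgebra.mem_toSubmodule]
  have h2 : φ M ∈ (Algebra.adjoin Λ (G : Set (Matrix (Fin n) (Fin n) Λ))).map φ.toAlgHom := by
    rw [h1]
    trivial
  obtain ⟨M', hM', h3⟩ := h2
  have h4 : M' = M := φ.injective h3
  rw [← h4]
  exact hM'

/-- A matrix of finite order: the trace lies in a finite set. -/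
theorem trace_mem {e : ℕ} {M : Matrix (Fin n) (Fin n) Λ} (hM : M ^ e = 1) :
    M.trace ∈ Set.range fun x : Fin n → {x : Λ | x ^ e = 1} => ∑ i, (x i : Λ) := by
  classical
  obtain ⟨b, hb⟩ := exists_roots (Matrix.charpoly_monic M)
    (by rw [Matrix.charpoly_natDegree_eq_dim, Fintype.card_fin]) (IsAlgClosed.splits M.charpoly)
  have h1 : ∀ i, b i ^ e = 1 := by
    intro i
    have h2 : M.charpoly.eval (b i) = 0 := by
      rw [hb, eval_prod]
      refine Finset.prod_eq_zero (Finset.mem_univ i) ?_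
      rw [eval_sub, eval_X, eval_C, sub_self]
    rw [Matrix.eval_charpoly] at h2
    obtain ⟨v, hv, h3⟩ := Matrix.exists_mulVec_eq_zero_iff.2 h2
    have h4 : M *ᵥ v = b i • v := by
      rw [Matrix.sub_mulVec, sub_eq_zero] at h3
      rw [← h3, Matrix.scalar_apply]
      ext j
      rw [Matrix.mulVec_diagonal, Pi.smul_apply, smul_eq_mul]
    have h5 : ∀ k : ℕ, (M ^ k) *ᵥ v = b i ^ k • v := by
      intro k
      induction k with
      | zero => rw [pow_zero, pow_zero, Matrix.one_mulVec, one_smul]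
      | succ k ih =>
        rw [pow_succ', pow_succ, ← Matrix.mulVec_mulVec, ih, Matrix.mulVec_smul, h4, smul_smul]
    have h6 := h5 e
    rw [hM, Matrix.one_mulVec] at h6
    have h7 : (b i ^ e - 1) • v = 0 := by rw [sub_smul, ← h6, one_smul, sub_self]
    exact sub_eq_zero.1 ((smul_eq_zero.1 h7).resolve_right hv)
  refine ⟨fun i => ⟨b i, h1 i⟩, ?_⟩
  change ∑ i, b i = M.trace
  have h8 : (∏ i, (X - C (b i))).roots = Finset.univ.val.map b := by
    have h9 : (∏ i, (X - C (b i)) : Λ[X]) = ((Finset.univ.val.map b).map fun a => X - C a).prod := by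
      rw [Multiset.map_map]
      rfl
    rw [h9, Polynomial.roots_multiset_prod_X_sub_C]
  rw [Matrix.trace_eq_sum_roots_charpoly, hb, h8]
  rfl

/-- Burnside's theorem. -/
theorem burnside (hn : n ≠ 0) (G : Submonoid (Matrix (Fin n) (Fin n) Λ))
    (hirr : ∀ W : Submodule Λ (Fin n → Λ), (∀ g ∈ G, ∀ w ∈ W, g *ᵥ w ∈ W) → W = ⊥ ∨ W = ⊤)
    {e : ℕ} (he : 0 < e) (hG : ∀ g ∈ G, g ^ e = 1) :
    (G : Set (Matrix (Fin n) (Fin n) Λ)).Finite := by
  classical
  have h1 := span_top hn G hirr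
  obtain ⟨d, f, hf1, hf2⟩ : ∃ (d : ℕ) (f : Fin d → Matrix (Fin n) (Fin n) Λ),
      (∀ i, f i ∈ (G : Set (Matrix (Fin n) (Fin n) Λ))) ∧
      Submodule.span Λ (Set.range f) = ⊤ := by
    obtain ⟨f, hf1, hf2, -⟩ := Submodule.exists_fun_fin_finrank_span_eq Λ
      (G : Set (Matrix (Fin n) (Fin n) Λ))
    exact ⟨_, f, hf1, hf2.trans h1⟩
  have hfin : ({x : Λ | x ^ e = 1}).Finite := by
    have h2 : {x : Λ | x ^ e = 1} ⊆ ((nthRootsFinset e (1 : Λ) : Finset Λ) : Set Λ) := by
      intro x hx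
      rw [Finset.mem_coe, mem_nthRootsFinset he]
      exact hx
    exact (Finset.finite_toSet _).subset h2
  have : Finite {x : Λ | x ^ e = 1} := hfin
  have hT : (Set.range fun x : Fin n → {x : Λ | x ^ e = 1} => ∑ i, (x i : Λ)).Finite :=
    Set.finite_range _
  let Φ : Matrix (Fin n) (Fin n) Λ → (Fin d → Λ) := fun M i => (M * f i).trace
  have hΦ : Function.Injective Φ := by
    intro M M' h
    have h2 : ∀ X : Matrix (Fin n) (Fin n) Λ, (M * X).trace = (M' * X).trace := by
      intro X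
      have hX : X ∈ Submodule.span Λ (Set.range f) := by rw [hf2]; trivial
      induction hX using Submodule.span_induction with
      | mem x hx => obtain ⟨i, rfl⟩ := hx; exact congrFun h i
      | zero => rw [mul_zero, mul_zero]
      | add x y _ _ hx hy => rw [mul_add, mul_add, Matrix.trace_add, Matrix.trace_add, hx, hy]
      | smul a x _ hx => rw [mul_smul_comm, mul_smul_comm, Matrix.trace_smul, Matrix.trace_smul, hx]
    exact Matrix.ext_iff_trace_mul_right.2 h2
  have h2 : Φ '' (G : Set _) ⊆ Set.pi Set.univ fun _ : Fin d =>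
      (Set.range fun x : Fin n → {x : Λ | x ^ e = 1} => ∑ i, (x i : Λ)) := by
    rintro _ ⟨M, hM, rfl⟩ i _
    exact trace_mem (hG _ (G.mul_mem hM (hf1 i)))
  exact Set.Finite.of_finite_image ((Set.Finite.pi' fun _ => hT).subset (fun x hx i => h2 hx i trivial)) hΦ.injOn

end Pool.Agent.H853.RU
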