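import Pool.Agent.H853.RU.Act

/-!
# Residually unipotent representations: finite level, split case
-/

set_option autoImplicit false

namespace Pool.Agent.H853.RU

open Module Polynomial

variable {A κ : Type*} [CommRing A] [Field κ] {n : ℕ} {Γ : Type*} [Group Γ]

/-- the span of the matrices `ρ g - 1`, `g ∈ π` -/
def augm (π : Subgroup Γ) (ρ : Γ →* (Matrix (Fin n) (Fin n) A)ˣ) :
    Submodule A (Matrix (Fin n) (Fin n) A) :=
  Submodule.span A (Set.range fun g : π => (ρ g : Matrix (Fin n) (Fin n) A) - 1)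

theorem mem_augm (π : Subgroup Γ) (ρ : Γ →* (Matrix (Fin n) (Fin n) A)ˣ) (g : π) :
    (ρ g : Matrix (Fin n) (Fin n) A) - 1 ∈ augm π ρ := Submodule.subset_span ⟨g, rfl⟩

theorem augm_mul (π : Subgroup Γ) (ρ : Γ →* (Matrix (Fin n) (Fin n) A)ˣ) :
    augm π ρ * augm π ρ ≤ augm π ρ := by
  unfold augm
  rw [Submodule.span_mul_span, Submodule.span_le]
  rintro _ ⟨_, ⟨g, rfl⟩, _, ⟨h, rfl⟩, rfl⟩
  have h1 : ((ρ g : Matrix (Fin n) (Fin n) A) - 1) * ((ρ h : Matrix (Fin n) (Fin n) A) - 1) =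
      ((ρ ((g * h : π) : Γ) : Matrix (Fin n) (Fin n) A) - 1) -
        ((ρ g : Matrix (Fin n) (Fin n) A) - 1) - ((ρ h : Matrix (Fin n) (Fin n) A) - 1) := by
    rw [Subgroup.coe_mul, map_mul, Units.val_mul, sub_mul, mul_sub, one_mul, mul_one]
    abel
  change ((ρ g : Matrix (Fin n) (Fin n) A) - 1) * ((ρ h : Matrix (Fin n) (Fin n) A) - 1) ∈ _
  rw [h1]
  exact Submodule.sub_mem _ (Submodule.sub_mem _ (mem_augm π ρ (g * h)) (mem_augm π ρ g))
    (mem_augm π ρ h)

theorem conj_augm (π : Subgroup Γ) [π.Normal] (ρ : Γ →* (Matrix (Fin n) (Fin n) A)ˣ) (F : Γ) :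
    ∀ x ∈ augm π ρ, conj (ρ F : Matrix (Fin n) (Fin n) A) (ρ F⁻¹ : Matrix (Fin n) (Fin n) A) x ∈
      augm π ρ := by
  intro x hx
  unfold augm at hx
  induction hx using Submodule.span_induction with
  | mem x hx =>
    obtain ⟨g, rfl⟩ := hx
    have h1 : F * g * F⁻¹ ∈ π := (inferInstance : π.Normal).conj_mem g g.2 F
    have h2 : conj (ρ F : Matrix (Fin n) (Fin n) A) (ρ F⁻¹ : Matrix (Fin n) (Fin n) A)
        ((ρ g : Matrix (Fin n) (Fin n) A) - 1) = (ρ (⟨_, h1⟩ : π) : Matrix (Fin n) (Fin n) A) - 1 := by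
      rw [conj_apply, mul_sub, sub_mul, mul_one, ← Units.val_mul, ← Units.val_mul, ← Units.val_mul,
        ← map_mul, ← map_mul, ← map_mul, mul_inv_cancel, map_one, Units.val_one]
    change conj _ _ ((ρ g : Matrix (Fin n) (Fin n) A) - 1) ∈ _
    rw [h2]
    exact mem_augm π ρ _
  | zero => rw [map_zero]; exact Submodule.zero_mem _
  | add x y _ _ hx hy => rw [map_add]; exact Submodule.add_mem _ hx hy
  | smul a x _ hx => rw [map_smul]; exact Submodule.smul_mem _ _ hx

/-- Finite level, split case. -/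
theorem fin_split [IsNoetherianRing A] (res : A →+* κ) (hres : Function.Surjective res) {k : ℕ}
    (hk : RingHom.ker res ^ k = ⊥) (π : Subgroup Γ) [π.Normal]
    (ρ : Γ →* (Matrix (Fin n) (Fin n) A)ˣ) (F : Γ) (b : Fin n → κ)
    (hb : ((ρ F : Matrix (Fin n) (Fin n) A).map res).charpoly = ∏ i, (X - C (b i)))
    (S : Set κ)
    (hS : ∀ (s : κ) (c : π → κ), (∀ g h, c (g * h) = c g + c h) →
      (∀ g h : π, ρ g = ρ h → c g = c h) →
      (∀ g h : π, (h : Γ) = F * g * F⁻¹ → c h = s * c g) → (∃ g, c g ≠ 0) → s ∈ S)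
    (hcyc : ∀ (m : ℕ) (u : ℕ → κ), 0 < m → m ≤ n → (∀ j ≤ m, u j ∈ Set.range b) →
      (∀ j < m, ∃ s ∈ S, u (j + 1) = s * u j) → u m ≠ u 0)
    {N : ℕ} (hN : ∀ g : Fin N → π, ∀ i j,
      res ((List.ofFn fun t => (ρ (g t) : Matrix (Fin n) (Fin n) A) - 1).prod i j) = 0) :
    augm π ρ ^ n = ⊥ := by
  classical
  rcases Nat.eq_zero_or_pos n with hn | hn
  · subst hn
    rw [eq_bot_iff]
    intro x _
    rw [Submodule.mem_bot]
    exact Subsingleton.elim _ _
  set I := augm π ρ with hI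
  set f : Matrix (Fin n) (Fin n) A := (ρ F : Matrix (Fin n) (Fin n) A) with hf
  set f' : Matrix (Fin n) (Fin n) A := (ρ F⁻¹ : Matrix (Fin n) (Fin n) A) with hf'
  have h1 : f * f' = 1 := by
    rw [hf, hf', ← Units.val_mul, ← map_mul, mul_inv_cancel, map_one, Units.val_one]
  have h2 : f' * f = 1 := by
    rw [hf, hf', ← Units.val_mul, ← map_mul, inv_mul_cancel, map_one, Units.val_one]
  set σ := conj f f' with hσ
  let lft : κ → A := Function.surjInv hres
  have hl : ∀ x, res (lft x) = x := Function.surjInv_eq hres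
  have hσI : ∀ x ∈ I, σ x ∈ I := conj_augm π ρ F
  set K₀ : Submodule A (Matrix (Fin n) (Fin n) A) := RingHom.ker res • I ⊔ I * I with hK₀
  have hσK : ∀ x ∈ K₀, σ x ∈ K₀ := by
    intro x hx
    obtain ⟨y, hy, z, hz, rfl⟩ := Submodule.mem_sup.1 hx
    rw [map_add]
    refine Submodule.add_mem_sup ?_ ?_
    · refine Submodule.smul_induction_on hy (fun a ha w hw => ?_) fun w w' hw hw' => ?_
      · rw [map_smul]
        exact Submodule.smul_mem_smul ha (hσI w hw)
      · rw [map_add]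
        exact Submodule.add_mem _ hw hw'
    · refine Submodule.mul_induction_on hz (fun a ha w hw => ?_) fun w w' hw hw' => ?_
      · rw [hσ, conj_mul h2]
        exact Submodule.mul_mem_mul (hσI a ha) (hσI w hw)
      · rw [map_add]
        exact Submodule.add_mem _ hw hw'
  -- no eigenfunctionals outside `S`
  have key : ∀ s : κ, s ∉ S → I ⊓ σ.maxGenEigenspace (lft s) ≤ K₀ := by
    intro s hs
    refine inf_ge_le res hres hk hσI hσK (lft s) fun c hc1 hc2 hc3 => ?_
    let c' : π → κ := fun g => c ⟨(ρ g : Matrix (Fin n) (Fin n) A) - 1, mem_augm π ρ g⟩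
    have h3 : ∀ g, c' g = 0 := by
      by_contra hne
      push Not at hne
      refine hs (hS s c' ?_ ?_ ?_ hne)
      · intro g h
        have e1 : (⟨(ρ ((g * h : π) : Γ) : Matrix (Fin n) (Fin n) A) - 1,
            mem_augm π ρ (g * h)⟩ : I) =
            ⟨(ρ g : Matrix (Fin n) (Fin n) A) - 1, mem_augm π ρ g⟩ +
            ⟨(ρ h : Matrix (Fin n) (Fin n) A) - 1, mem_augm π ρ h⟩ +
            ⟨((ρ g : Matrix (Fin n) (Fin n) A) - 1) * ((ρ h : Matrix (Fin n) (Fin n) A) - 1),
              augm_mul π ρ (Submodule.mul_mem_mul (mem_augm π ρ g) (mem_augm π ρ h))⟩ := by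
          apply Subtype.ext
          change (ρ ((g * h : π) : Γ) : Matrix (Fin n) (Fin n) A) - 1 =
            ((ρ g : Matrix (Fin n) (Fin n) A) - 1) + ((ρ h : Matrix (Fin n) (Fin n) A) - 1) +
            ((ρ g : Matrix (Fin n) (Fin n) A) - 1) * ((ρ h : Matrix (Fin n) (Fin n) A) - 1)
          rw [Subgroup.coe_mul, map_mul, Units.val_mul, sub_mul, mul_sub, one_mul, mul_one]
          abel
        change c _ = c _ + c _
        rw [e1, map_add, map_add, hc2 ⟨((ρ g : Matrix (Fin n) (Fin n) A) - 1) *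
          ((ρ h : Matrix (Fin n) (Fin n) A) - 1), _⟩ (Submodule.mem_sup_right
            (Submodule.mul_mem_mul (mem_augm π ρ g) (mem_augm π ρ h))), add_zero]
      · intro g h hgh
        change c _ = c _
        congr 1
        apply Subtype.ext
        change (ρ g : Matrix (Fin n) (Fin n) A) - 1 = (ρ h : Matrix (Fin n) (Fin n) A) - 1
        rw [hgh]
      · intro g h hgh
        have e1 := hc3 ⟨(ρ g : Matrix (Fin n) (Fin n) A) - 1, mem_augm π ρ g⟩
        rw [hl] at e1
        change c _ = s * c _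
        rw [← e1]
        congr 1
        apply Subtype.ext
        change (ρ h : Matrix (Fin n) (Fin n) A) - 1 = σ ((ρ g : Matrix (Fin n) (Fin n) A) - 1)
        rw [hσ, conj_apply, hgh, mul_sub, sub_mul, mul_one, h1, hf, hf', map_mul, map_mul,
          Units.val_mul, Units.val_mul]
    have h4 : ∀ (x : Matrix (Fin n) (Fin n) A) (hx : x ∈ I), c ⟨x, hx⟩ = 0 := by
      intro x hx
      refine Submodule.span_induction (p := fun x _ => ∀ hx : x ∈ I, c ⟨x, hx⟩ = 0) ?_ ?_ ?_ ?_ hx hx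
      · rintro _ ⟨g, rfl⟩ hx
        exact h3 g
      · intro hx
        exact map_zero c
      · intro x y hx hy hx' hy' hxy
        have e1 : (⟨x + y, hxy⟩ : I) = ⟨x, hx⟩ + ⟨y, hy⟩ := rfl
        rw [e1, map_add, hx' hx, hy' hy, add_zero]
      · intro a x hx hx' hax
        have e1 : (⟨a • x, hax⟩ : I) = a • (⟨x, hx⟩ : I) := rfl
        rw [e1, hc1, hx' hx, mul_zero]
    ext ⟨x, hx⟩
    exact h4 x hx
  -- the part of weight in `S`
  set Z : Set (Matrix (Fin n) (Fin n) A) :=
    {y | y ∈ I ∧ ∃ s ∈ S, y ∈ σ.maxGenEigenspace (lft s)} with hZ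
  set Y : Submodule A (Matrix (Fin n) (Fin n) A) := Submodule.span A Z with hY
  have hYI : Y ≤ I := by
    rw [hY, Submodule.span_le]
    intro y hy
    exact hy.1
  have hgen : I ≤ Y ⊔ K₀ := by
    intro x hx
    have h3 := mem_iSup hres hk hl h1 h2 hb x
    rw [Submodule.mem_iSup_finset_iff_exists_sum] at h3
    obtain ⟨μ, hμ⟩ := h3
    have hC : ∀ c ∈ Finset.univ.image fun p : Fin n × Fin n => lft (b p.1 * (b p.2)⁻¹),
        ∀ d ∈ Finset.univ.image fun p : Fin n × Fin n => lft (b p.1 * (b p.2)⁻¹),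
        c ≠ d → IsUnit (c - d) := by
      refine unit_diff hres hk hl fun c hc => ?_
      obtain ⟨i, -, rfl⟩ := Finset.mem_image.1 hc
      exact ⟨_, rfl⟩
    have h4 := comp_mem (h := σ) hC I hσI (y := fun c => (μ c : Matrix (Fin n) (Fin n) A))
      (fun c _ => (μ c).2) (by rw [hμ]; exact hx)
    rw [← hμ]
    refine Submodule.sum_mem _ fun c hc => ?_
    have h5 := h4 c hc
    have h6 := (μ c).2
    obtain ⟨p, -, hp⟩ := Finset.mem_image.1 hc
    by_cases hs : b p.1 * (b p.2)⁻¹ ∈ S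
    · refine Submodule.mem_sup_left (Submodule.subset_span ⟨h5, _, hs, ?_⟩)
      rw [hp]
      exact h6
    · refine Submodule.mem_sup_right (key _ hs ⟨h5, ?_⟩)
      rw [hp]
      exact h6
  have hYn : Y ^ n = ⊥ := by
    rw [hY, Submodule.span_pow, eq_bot_iff, Submodule.span_le]
    intro y hy
    rw [Set.mem_pow] at hy
    obtain ⟨g, rfl⟩ := hy
    change _ = (0 : Matrix (Fin n) (Fin n) A)
    refine prod_zero hres hk hl h2 hb hcyc _ (List.length_ofFn) ?_
    intro y hy
    obtain ⟨i, rfl⟩ := (List.mem_ofFn' _ _).1 hy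
    exact (g i).2.2
  have hIN : I ^ (N * k) = ⊥ := by
    have h3 : I ^ N ≤ RingHom.ker res • (⊤ : Submodule A (Matrix (Fin n) (Fin n) A)) := by
      rw [hI]
      unfold augm
      rw [Submodule.span_pow, Submodule.span_le]
      intro y hy
      rw [Set.mem_pow] at hy
      obtain ⟨g, rfl⟩ := hy
      choose g' hg' using fun i => (g i).2
      refine mem_smul_top fun i j => ?_
      rw [RingHom.mem_ker]
      have h4 := hN g' i j
      have h5 : (fun t => (ρ (g' t) : Matrix (Fin n) (Fin n) A) - 1) =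
          fun t => ((g t : _) : Matrix (Fin n) (Fin n) A) := funext fun t => hg' t
      rw [h5] at h4
      exact h4
    rw [pow_mul, eq_bot_iff]
    refine (pow_le_pow_left' h3 k).trans ((smul_top_pow _ _).trans ?_)
    rw [hk, Submodule.bot_smul]
  exact pow_eq_bot hk hIN (augm_mul π ρ) hYI hgen hn hYn

end Pool.Agent.H853.RU
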