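import Pool.Agent.H853.RU.Sub

/-!
# Eigenfunctionals on the first layer
-/

set_option autoImplicit false

namespace Pool.Agent.H853.RU

open Module Polynomial

variable {A : Type*} [CommRing A] {κ : Type*} [Field κ]

/-- a nonzero generalized eigenvector gives a nonzero eigenfunctional with values in the residue
field -/
theorem exists_functional {V : Type*} [AddCommGroup V] [Module A V] [IsNoetherian A V]
    (res : A →+* κ) (hres : Function.Surjective res) {k : ℕ} (hk : (RingHom.ker res) ^ k = ⊥)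
    (φ : End A V) (t : A) {v : V} (hv : v ≠ 0) (hφ : v ∈ φ.maxGenEigenspace t) :
    ∃ c : V →+ κ, (∀ (a : A) (x : V), c (a • x) = res a * c x) ∧
      (∀ x, c (φ x) = res t * c x) ∧ c ≠ 0 := by
  set τ : End A V := φ - t • 1 with hτ
  obtain ⟨N, hN⟩ := mem_ge.1 hφ
  have h1 : ¬ Function.Injective τ := by
    intro h
    have h2 : Function.Injective (τ ^ N) := by
      rw [Module.End.coe_pow]
      exact h.iterate N
    exact hv (h2 (hN.trans (map_zero (τ ^ N)).symm))
  have h2 : LinearMap.range τ ≠ ⊤ := by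
    intro h
    exact h1 (IsNoetherian.injective_of_surjective_endomorphism τ (LinearMap.range_eq_top.1 h))
  obtain ⟨K, hK, hKτ⟩ := (eq_top_or_exists_le_coatom (LinearMap.range τ)).resolve_left h2
  have h3 : IsSimpleModule A (V ⧸ K) := isSimpleModule_iff_isCoatom.2 hK
  obtain ⟨J, hJ, ⟨e⟩⟩ := isSimpleModule_iff_quot_maximal.1 h3
  have h4 : RingHom.ker res ≤ J := by
    refine hJ.isPrime.le_of_pow_le (n := k) ?_
    rw [hk]
    exact bot_le
  have h5 : RingHom.ker res = J :=
    (RingHom.ker_isMaximal_of_surjective res hres).eq_of_le hJ.ne_top h4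
  subst h5
  let ψ : (A ⧸ RingHom.ker res) ≃+* κ := RingHom.quotientKerEquivOfSurjective hres
  let c : V →+ κ := (ψ : (A ⧸ RingHom.ker res) →+* κ).toAddMonoidHom.comp
    ((e.toLinearMap.comp K.mkQ).toAddMonoidHom)
  have hc : ∀ x, c x = ψ (e (K.mkQ x)) := fun x => rfl
  have hca : ∀ (a : A) (x : V), c (a • x) = res a * c x := by
    intro a x
    rw [hc, hc, map_smul, map_smul, Algebra.smul_def, map_mul]
    rfl
  refine ⟨c, hca, ?_, ?_⟩
  · intro x
    have h6 : φ x = τ x + t • x := by
      rw [hτ, LinearMap.sub_apply, LinearMap.smul_apply, Module.End.one_apply, sub_add_cancel]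
    have h7 : c (τ x) = 0 := by
      rw [hc, (Submodule.Quotient.mk_eq_zero K (x := τ x)).2 (hKτ ⟨x, rfl⟩) |> fun h => (h : K.mkQ (τ x) = 0),
        map_zero, map_zero]
    rw [h6, map_add, h7, zero_add, hca]
  · intro h
    have h6 : K = ⊤ := by
      rw [eq_top_iff]
      intro x _
      have h7 : c x = 0 := by rw [h]; rfl
      rw [hc, map_eq_zero_iff ψ ψ.injective, map_eq_zero_iff e e.injective] at h7
      exact (Submodule.Quotient.mk_eq_zero K).1 h7
    exact hK.1 h6

/-- The generalized eigenspace lies in a stable submodule `K₀` if there are no eigenfunctionals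
modulo `K₀`. -/
theorem inf_ge_le {E : Type*} [AddCommGroup E] [Module A E] [IsNoetherian A E]
    (res : A →+* κ) (hres : Function.Surjective res) {k : ℕ} (hk : (RingHom.ker res) ^ k = ⊥)
    {I : Submodule A E} {σ : End A E} (hσI : ∀ x ∈ I, σ x ∈ I) {K₀ : Submodule A E}
    (hσK : ∀ x ∈ K₀, σ x ∈ K₀) (t : A)
    (h : ∀ c : I →+ κ, (∀ (a : A) (x : I), c (a • x) = res a * c x) →
      (∀ x : I, (x : E) ∈ K₀ → c x = 0) → (∀ x : I, c ⟨σ x, hσI x x.2⟩ = res t * c x) → c = 0) :
    I ⊓ σ.maxGenEigenspace t ≤ K₀ := by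
  intro x hx
  by_contra hxK
  let φI : End A I := σ.restrict hσI
  let K : Submodule A I := K₀.comap I.subtype
  have hK : K ≤ K.comap φI := by
    intro y hy
    exact hσK _ hy
  let φ : End A (I ⧸ K) := K.mapQ K φI hK
  let v : I ⧸ K := K.mkQ ⟨x, hx.1⟩
  have hv : v ≠ 0 := by
    intro h0
    exact hxK ((Submodule.Quotient.mk_eq_zero K).1 h0)
  have hφ : v ∈ φ.maxGenEigenspace t := by
    rw [mem_ge]
    obtain ⟨N, hN⟩ := mem_ge.1 hx.2
    refine ⟨N, ?_⟩
    have h1 : ∀ (N : ℕ), ((φ - t • 1) ^ N) v = K.mkQ (((φI - t • 1) ^ N) ⟨x, hx.1⟩) := by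
      intro N
      induction N with
      | zero => rfl
      | succ N ih =>
        rw [pow_succ', pow_succ', Module.End.mul_apply, Module.End.mul_apply, ih]
        rfl
    have h2 : ∀ (N : ℕ), ((((φI - t • 1) ^ N) ⟨x, hx.1⟩ : I) : E) = ((σ - t • 1) ^ N) x := by
      intro N
      induction N with
      | zero => rfl
      | succ N ih =>
        rw [pow_succ', pow_succ', Module.End.mul_apply, Module.End.mul_apply, ← ih]
        rfl
    rw [h1]
    have h3 : ((φI - t • 1) ^ N) ⟨x, hx.1⟩ = 0 := by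
      apply Subtype.ext
      rw [h2, hN]
      rfl
    rw [h3, map_zero]
  obtain ⟨c, hc1, hc2, hc3⟩ := exists_functional res hres hk φ t hv hφ
  have h4 := h (c.comp K.mkQ.toAddMonoidHom) (fun a y => ?_) (fun y hy => ?_) (fun y => ?_)
  · apply hc3
    ext y
    obtain ⟨y, rfl⟩ := Submodule.Quotient.mk_surjective K y
    exact DFunLike.congr_fun h4 y
  · change c (K.mkQ (a • y)) = _
    rw [map_smul, hc1]
    rfl
  · change c (K.mkQ y) = 0
    rw [show K.mkQ y = 0 from (Submodule.Quotient.mk_eq_zero K).2 hy, map_zero]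
  · exact hc2 (K.mkQ y)

end Pool.Agent.H853.RU
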