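import Mathlib

/-!
# Generalized eigenspaces over local rings
-/

set_option autoImplicit false

namespace Pool.Agent.H853.RU

open Module Polynomial

section gen

variable {A : Type*} [CommRing A] {M : Type*} [AddCommGroup M] [Module A M]

theorem add_pow_zero {a b : End A M} (hab : Commute a b) {p q : ℕ} {x : M} (hp : (a ^ p) x = 0)
    (hq : (b ^ q) x = 0) : ((a + b) ^ (p + q)) x = 0 := by
  rw [hab.add_pow', LinearMap.sum_apply]
  refine Finset.sum_eq_zero fun m hm => ?_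
  rw [LinearMap.smul_apply]
  have h1 := Finset.HasAntidiagonal.mem_antidiagonal.1 hm
  rcases le_or_gt p m.1 with h2 | h2
  · have h3 : (a ^ m.1 * b ^ m.2) x = 0 := by
      rw [(hab.pow_pow m.1 m.2).eq, Module.End.mul_apply]
      obtain ⟨r, hr⟩ := Nat.exists_eq_add_of_le h2
      rw [hr, add_comm, pow_add, Module.End.mul_apply, hp, map_zero, map_zero]
    rw [h3, smul_zero]
  · have h3 : (a ^ m.1 * b ^ m.2) x = 0 := by
      rw [Module.End.mul_apply]
      obtain ⟨r, hr⟩ := Nat.exists_eq_add_of_le (show q ≤ m.2 by omega)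
      rw [hr, add_comm, pow_add, Module.End.mul_apply, hq, map_zero, map_zero]
    rw [h3, smul_zero]

theorem mem_ge {h : End A M} {c : A} {x : M} :
    x ∈ h.maxGenEigenspace c ↔ ∃ N : ℕ, ((h - c • 1) ^ N) x = 0 :=
  Module.End.mem_maxGenEigenspace h c x

theorem ge_of_nilp {h : End A M} {c c' : A} (hc : IsNilpotent (c - c')) {x : M}
    (hx : x ∈ h.maxGenEigenspace c) : x ∈ h.maxGenEigenspace c' := by
  rw [mem_ge] at hx ⊢
  obtain ⟨p, hp⟩ := hx
  obtain ⟨q, hq⟩ := hc
  refine ⟨p + q, ?_⟩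
  have h1 : h - c' • (1 : End A M) = (h - c • 1) + (c - c') • 1 := by
    rw [sub_smul]
    abel
  rw [h1]
  refine add_pow_zero ?_ hp ?_
  · exact (Commute.one_right _).smul_right _
  · rw [_root_.smul_pow, one_pow, hq, zero_smul, LinearMap.zero_apply]

/-- The product of commuting maps. -/
theorem ge_mul {g h : End A M} (hgh : Commute g h) {c d : A} {x : M}
    (hg : x ∈ g.maxGenEigenspace c) (hh : x ∈ h.maxGenEigenspace d) :
    x ∈ (g * h).maxGenEigenspace (c * d) := by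
  rw [mem_ge] at hg hh ⊢
  obtain ⟨p, hp⟩ := hg
  obtain ⟨q, hq⟩ := hh
  refine ⟨p + q, ?_⟩
  have h1 : g * h - (c * d) • (1 : End A M) = (g - c • 1) * h + c • (h - d • 1) := by
    rw [sub_mul, smul_sub, smul_smul, smul_mul_assoc, one_mul]
    abel
  have c1 : Commute (g - c • 1) h :=
    hgh.sub_left ((Commute.one_left h).smul_left c)
  have c2 : Commute ((g - c • 1) * h) (c • (h - d • 1)) := by
    refine Commute.smul_right ?_ c
    refine Commute.mul_left ?_ ?_
    · exact c1.sub_right ((Commute.one_right _).smul_right d)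
    · exact (Commute.refl h).sub_right ((Commute.one_right _).smul_right d)
  rw [h1]
  refine add_pow_zero c2 ?_ ?_
  · rw [c1.mul_pow, (c1.pow_pow p p).eq, Module.End.mul_apply, hp, map_zero]
  · rw [_root_.smul_pow, LinearMap.smul_apply, hq, smul_zero]

theorem pairwise_cop {C₀ : Finset A} (hC : ∀ c ∈ C₀, ∀ d ∈ C₀, c ≠ d → IsUnit (c - d)) (N : ℕ) :
    Pairwise (Function.onFun IsCoprime fun c : C₀ => ((X - C (c : A)) ^ N : A[X])) := by
  intro c d hcd
  have h1 : IsUnit ((c : A) - d) := hC c c.2 d d.2 fun h => hcd (Subtype.ext h)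
  have h2 : IsCoprime (X - C (c : A)) (X - C (d : A)) := isCoprime_X_sub_C_of_isUnit_sub h1
  exact h2.pow

theorem exists_mu {C₀ : Finset A} (hC : ∀ c ∈ C₀, ∀ d ∈ C₀, c ≠ d → IsUnit (c - d)) (N : ℕ)
    (hne : C₀.Nonempty) [DecidableEq A] :
    ∃ μ : A → A[X], ∑ c ∈ C₀, μ c * ∏ d ∈ C₀ \ {c}, (X - C d) ^ N = 1 :=
  (exists_sum_eq_one_iff_pairwise_coprime (s := fun c : A => ((X - C c) ^ N : A[X])) hne).2
    (pairwise_cop hC N)

theorem poly_mem {h : End A M} {W : Submodule A M} (hW : ∀ x ∈ W, h x ∈ W) (p : A[X]) {z : M}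
    (hz : z ∈ W) : aeval h p z ∈ W := by
  induction p using Polynomial.induction_on' with
  | add p q hp hq => rw [map_add, LinearMap.add_apply]; exact W.add_mem hp hq
  | monomial k a =>
    rw [aeval_monomial, Module.End.mul_apply, Module.algebraMap_end_apply]
    refine W.smul_mem _ ?_
    induction k with
    | zero => exact hz
    | succ k ih => rw [pow_succ', Module.End.mul_apply]; exact hW _ ih

theorem aeval_X_sub (h : End A M) (c : A) : aeval h (X - C c) = h - c • 1 := by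
  rw [map_sub, aeval_X, aeval_C, Algebra.algebraMap_eq_smul_one]

/-- The decomposition of a vector. -/
theorem exists_decomp {h : End A M} {C₀ : Finset A}
    (hC : ∀ c ∈ C₀, ∀ d ∈ C₀, c ≠ d → IsUnit (c - d)) {N : ℕ}
    (hN : aeval h (∏ c ∈ C₀, (X - C c) ^ N) = 0) (W : Submodule A M) (hW : ∀ x ∈ W, h x ∈ W)
    {x : M} (hx : x ∈ W) :
    ∃ y : A → M, (∀ c ∈ C₀, y c ∈ h.maxGenEigenspace c ∧ y c ∈ W) ∧ ∑ c ∈ C₀, y c = x := by
  classical
  by_cases hne : C₀.Nonempty
  · obtain ⟨μ, hμ⟩ := exists_mu hC N hne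
    refine ⟨fun c => aeval h (μ c * ∏ d ∈ C₀ \ {c}, (X - C d) ^ N) x, fun c hc => ⟨?_, ?_⟩, ?_⟩
    · rw [mem_ge]
      refine ⟨N, ?_⟩
      have h1 : (h - c • 1) ^ N = aeval h ((X - C c) ^ N) := by
        rw [map_pow, aeval_X_sub]
      rw [h1, ← Module.End.mul_apply, ← map_mul]
      have h2 : (X - C c) ^ N * (μ c * ∏ d ∈ C₀ \ {c}, (X - C d) ^ N) =
          μ c * ∏ d ∈ C₀, (X - C d) ^ N := by
        rw [← Finset.prod_sdiff (Finset.singleton_subset_iff.2 hc), Finset.prod_singleton]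
        ring
      rw [h2, map_mul, hN, mul_zero, LinearMap.zero_apply]
    · exact poly_mem hW _ hx
    · rw [← LinearMap.sum_apply, ← map_sum, hμ, map_one]
      rfl
  · rw [Finset.not_nonempty_iff_eq_empty] at hne
    subst hne
    rw [Finset.prod_empty, map_one] at hN
    refine ⟨fun _ => 0, fun c hc => absurd hc (Finset.notMem_empty c), ?_⟩
    have h1 := LinearMap.congr_fun hN x
    rw [Finset.sum_empty]
    exact h1.symm

/-- The components of an element of a stable submodule. -/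
theorem comp_mem {h : End A M} {C₀ : Finset A}
    (hC : ∀ c ∈ C₀, ∀ d ∈ C₀, c ≠ d → IsUnit (c - d)) (W : Submodule A M) (hW : ∀ x ∈ W, h x ∈ W)
    {y : A → M} (hy : ∀ c ∈ C₀, y c ∈ h.maxGenEigenspace c) (hx : ∑ c ∈ C₀, y c ∈ W) :
    ∀ c ∈ C₀, y c ∈ W := by
  classical
  choose! N hN using fun c (hc : c ∈ C₀) => mem_ge.1 (hy c hc)
  let N₀ := ∑ c ∈ C₀, N c
  have hN₀ : ∀ c ∈ C₀, aeval h ((X - C c) ^ N₀) (y c) = 0 := by
    intro c hc
    obtain ⟨r, hr⟩ := Nat.exists_eq_add_of_le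
      (Finset.single_le_sum (f := N) (fun _ _ => Nat.zero_le _) hc)
    rw [map_pow, aeval_X_sub]
    change ((h - c • 1) ^ (∑ c ∈ C₀, N c)) (y c) = 0
    rw [hr, add_comm, pow_add, Module.End.mul_apply, hN c hc, map_zero]
  intro c hc
  obtain ⟨μ, hμ⟩ := exists_mu hC N₀ ⟨c, hc⟩
  have key : ∀ d ∈ C₀, ∀ e ∈ C₀, d ≠ e →
      aeval h (μ d * ∏ j ∈ C₀ \ {d}, (X - C j) ^ N₀) (y e) = 0 := by
    intro d _ e he hde
    have he' : e ∈ C₀ \ {d} := Finset.mem_sdiff.2 ⟨he, by simpa using hde.symm⟩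
    rw [← Finset.prod_sdiff (Finset.singleton_subset_iff.2 he'), Finset.prod_singleton, ← mul_assoc,
      map_mul, Module.End.mul_apply, hN₀ e he, map_zero]
  have h1 : aeval h (μ c * ∏ j ∈ C₀ \ {c}, (X - C j) ^ N₀) (∑ d ∈ C₀, y d) = y c := by
    rw [map_sum, Finset.sum_eq_single c (fun d hd hdc => key c hc d hd (Ne.symm hdc))
      (fun h => absurd hc h)]
    have h2 : (aeval h (∑ d ∈ C₀, μ d * ∏ j ∈ C₀ \ {d}, (X - C j) ^ N₀)) (y c) = y c := by
      rw [hμ, map_one]
      rfl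
    rw [map_sum, LinearMap.sum_apply, Finset.sum_eq_single c
      (fun d hd hdc => key d hd c hc hdc) (fun h => absurd hc h)] at h2
    exact h2
  rw [← h1]
  exact poly_mem hW _ hx

end gen

end Pool.Agent.H853.RU
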