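import Pool.Agent.H853.RU.Fun

/-!
# Matrices over a ring with a nilpotent ideal
-/

set_option autoImplicit false

namespace Pool.Agent.H853.RU

open Module Polynomial

section pow

variable {A : Type*} [CommRing A] {E : Type*} [Ring E] [Algebra A E]

theorem smul_top_pow (𝔪 : Ideal A) (j : ℕ) :
    (𝔪 • (⊤ : Submodule A E)) ^ j ≤ 𝔪 ^ j • (⊤ : Submodule A E) := by
  induction j with
  | zero => rw [pow_zero, pow_zero, Ideal.one_eq_top, Submodule.top_smul]; exact le_top
  | succ j ih =>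
    calc (𝔪 • (⊤ : Submodule A E)) ^ (j + 1)
        = (𝔪 • (⊤ : Submodule A E)) ^ j * (𝔪 • (⊤ : Submodule A E)) := pow_succ _ _
      _ ≤ (𝔪 ^ j • (⊤ : Submodule A E)) * (𝔪 • (⊤ : Submodule A E)) := mul_le_mul' ih le_rfl
      _ ≤ 𝔪 ^ j • ((⊤ : Submodule A E) * (𝔪 • (⊤ : Submodule A E))) := smul_mul_le _ _ _
      _ ≤ 𝔪 ^ j • (𝔪 • ((⊤ : Submodule A E) * (⊤ : Submodule A E))) :=
          Submodule.smul_mono le_rfl (mul_smul_le _ _ _)
      _ ≤ 𝔪 ^ j • (𝔪 • (⊤ : Submodule A E)) :=
          Submodule.smul_mono le_rfl (Submodule.smul_mono le_rfl le_top)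
      _ = 𝔪 ^ (j + 1) • (⊤ : Submodule A E) := by rw [← Submodule.mul_smul, ← pow_succ]

theorem pow_zero_of_mem {𝔪 : Ideal A} {k : ℕ} (hk : 𝔪 ^ k = ⊥) {x : E}
    (hx : x ∈ 𝔪 • (⊤ : Submodule A E)) : x ^ k = 0 := by
  have h1 : x ^ k ∈ (𝔪 • (⊤ : Submodule A E)) ^ k := Submodule.pow_mem_pow _ hx k
  have h2 := smul_top_pow 𝔪 k h1
  rw [hk, Submodule.bot_smul] at h2
  exact h2

theorem aeval_mulLeft (f : E) (P : A[X]) :
    aeval (LinearMap.mulLeft A f) P = LinearMap.mulLeft A (aeval f P) := by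
  induction P using Polynomial.induction_on' with
  | add p q hp hq =>
    rw [map_add, map_add, hp, hq]
    ext x
    simp only [LinearMap.add_apply, LinearMap.mulLeft_apply, add_mul]
  | monomial k a =>
    rw [aeval_monomial, aeval_monomial, LinearMap.pow_mulLeft]
    ext x
    simp only [Module.End.mul_apply, Module.algebraMap_end_apply, LinearMap.mulLeft_apply,
      Algebra.smul_def, mul_assoc]

theorem aeval_mulRight (f : E) (P : A[X]) :
    aeval (LinearMap.mulRight A f) P = LinearMap.mulRight A (aeval f P) := by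
  induction P using Polynomial.induction_on' with
  | add p q hp hq =>
    rw [map_add, map_add, hp, hq]
    ext x
    simp only [LinearMap.add_apply, LinearMap.mulRight_apply, mul_add]
  | monomial k a =>
    rw [aeval_monomial, aeval_monomial, LinearMap.pow_mulRight]
    ext x
    simp only [Module.End.mul_apply, Module.algebraMap_end_apply, LinearMap.mulRight_apply]
    rw [← mul_assoc, ← Algebra.commutes a x, Algebra.smul_def, mul_assoc]

/-- inverse maps have inverse eigenvalues -/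
theorem ge_inv {M : Type*} [AddCommGroup M] [Module A M] {g g' : End A M} (h1 : g * g' = 1)
    (h2 : g' * g = 1) {c d : A} (hcd : c * d = 1) {x : M} (hx : x ∈ g.maxGenEigenspace c) :
    x ∈ g'.maxGenEigenspace d := by
  rw [mem_ge] at hx ⊢
  obtain ⟨N, hN⟩ := hx
  refine ⟨N, ?_⟩
  have h3 : g' - d • (1 : End A M) = (-d) • (g' * (g - c • 1)) := by
    rw [mul_sub, h2, mul_smul_comm, mul_one, smul_sub, smul_smul, neg_mul, mul_comm d c, hcd,
      neg_smul, neg_smul, one_smul]
    abel
  have h4 : Commute g' (g - c • 1) := by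
    refine Commute.sub_right ?_ ((Commute.one_right _).smul_right c)
    rw [Commute, SemiconjBy, h1, h2]
  rw [h3, _root_.smul_pow, h4.mul_pow, LinearMap.smul_apply, Module.End.mul_apply, hN, map_zero,
    smul_zero]

end pow

section mat

variable {A κ : Type*} [CommRing A] [Field κ] {n : ℕ}

theorem mem_smul_top {J : Ideal A} {M : Matrix (Fin n) (Fin n) A} (h : ∀ i j, M i j ∈ J) :
    M ∈ J • (⊤ : Submodule A (Matrix (Fin n) (Fin n) A)) := by
  rw [Matrix.matrix_eq_sum_single M]
  refine Submodule.sum_mem _ fun i _ => Submodule.sum_mem _ fun j _ => ?_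
  have h1 : Matrix.single i j (M i j) = M i j • Matrix.single i j (1 : A) := by
    rw [Matrix.smul_single, smul_eq_mul, mul_one]
  rw [h1]
  exact Submodule.smul_mem_smul (h i j) trivial

variable (res : A →+* κ)

theorem map_aeval (M : Matrix (Fin n) (Fin n) A) (P : A[X]) :
    (aeval M P).map res = aeval (M.map res) (P.map res) := by
  change res.mapMatrix (aeval M P) = aeval (res.mapMatrix M) (P.map res)
  rw [aeval_def, aeval_def, hom_eval₂, eval₂_map]
  congr 1
  ext a i j
  simp only [RingHom.comp_apply, RingHom.mapMatrix_apply, Matrix.map_apply,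
    Matrix.algebraMap_matrix_apply, Algebra.algebraMap_self, RingHom.id_apply]
  split_ifs
  · rfl
  · exact map_zero res

variable {res}

theorem res_eq_zero_pow {k : ℕ} (hk : RingHom.ker res ^ k = ⊥) {a : A} (ha : res a = 0) :
    a ^ k = 0 := by
  have h1 : a ^ k ∈ RingHom.ker res ^ k := Ideal.pow_mem_pow (RingHom.mem_ker.2 ha) k
  rw [hk] at h1
  exact h1

theorem unit_of_res (hres : Function.Surjective res) {k : ℕ} (hk : RingHom.ker res ^ k = ⊥) {a : A}
    (ha : res a ≠ 0) : IsUnit a := by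
  obtain ⟨a', ha'⟩ := hres (res a)⁻¹
  have h1 : res (a * a' - 1) = 0 := by
    rw [map_sub, map_mul, ha', mul_inv_cancel₀ ha, map_one, sub_self]
  have h2 : IsNilpotent (a * a' - 1) := ⟨k, res_eq_zero_pow hk h1⟩
  have h3 : IsUnit (a * a') := by
    have h4 := h2.isUnit_add_one
    rwa [sub_add_cancel] at h4
  exact isUnit_of_mul_isUnit_left h3

theorem annih {k : ℕ} (hk : RingHom.ker res ^ k = ⊥) {lft : κ → A} (hl : ∀ x, res (lft x) = x)
    [DecidableEq A] (M : Matrix (Fin n) (Fin n) A) (a : Fin n → κ)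
    (h : aeval (M.map res) (∏ i, (X - C (a i))) = 0) :
    aeval M (∏ c ∈ Finset.univ.image fun i => lft (a i), (X - C c) ^ (n * k)) = 0 := by
  have h1 : (aeval M (∏ i, (X - C (lft (a i))))) ^ k = 0 := by
    refine pow_zero_of_mem hk (mem_smul_top fun i j => ?_)
    rw [RingHom.mem_ker]
    have h2 : (aeval M (∏ i, (X - C (lft (a i))))).map res = 0 := by
      rw [map_aeval, Polynomial.map_prod]
      simp only [Polynomial.map_sub, map_X, map_C, hl]
      exact h
    exact congrFun (congrFun h2 i) j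
  have h2 : (∏ i, (X - C (lft (a i)))) ^ k ∣
      ∏ c ∈ Finset.univ.image fun i => lft (a i), (X - C c : A[X]) ^ (n * k) := by
    rw [Finset.prod_comp (fun c : A => (X - C c : A[X])) (fun i => lft (a i)), ← Finset.prod_pow]
    refine Finset.prod_dvd_prod_of_dvd _ _ fun c _ => ?_
    rw [← pow_mul]
    refine pow_dvd_pow _ (Nat.mul_le_mul_right k ?_)
    exact (Finset.card_filter_le _ _).trans (by rw [Finset.card_univ, Fintype.card_fin])
  obtain ⟨Q, hQ⟩ := h2
  rw [hQ, map_mul, map_pow, h1, zero_mul]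

theorem unit_diff (hres : Function.Surjective res) {k : ℕ} (hk : RingHom.ker res ^ k = ⊥)
    {lft : κ → A} (hl : ∀ x, res (lft x) = x) {C₀ : Finset A} (hC₀ : ∀ c ∈ C₀, ∃ s, c = lft s) :
    ∀ c ∈ C₀, ∀ d ∈ C₀, c ≠ d → IsUnit (c - d) := by
  intro c hc d hd hcd
  obtain ⟨s, rfl⟩ := hC₀ c hc
  obtain ⟨t, rfl⟩ := hC₀ d hd
  refine unit_of_res hres hk ?_
  rw [map_sub, hl, hl, sub_ne_zero]
  rintro rfl
  exact hcd rfl

theorem root_ne_zero {f f' : Matrix (Fin n) (Fin n) A} (hf : f * f' = 1) {b : Fin n → κ}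
    (hb : (f.map res).charpoly = ∏ i, (X - C (b i))) (i : Fin n) : b i ≠ 0 := by
  intro h0
  have h1 : (f.map res).charpoly.eval 0 = 0 := by
    rw [hb, eval_prod]
    refine Finset.prod_eq_zero (Finset.mem_univ i) ?_
    rw [h0, eval_sub, eval_X, eval_C, sub_zero]
  rw [Matrix.eval_charpoly, map_zero, zero_sub, Matrix.det_neg] at h1
  have h2 : (f.map res).det * (f'.map res).det = 1 := by
    rw [← Matrix.det_mul, ← Matrix.map_mul, hf, Matrix.map_one _ (map_zero _) (map_one _),
      Matrix.det_one]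
  have h3 : (f.map res).det ≠ 0 := left_ne_zero_of_mul_eq_one h2
  exact mul_ne_zero (pow_ne_zero _ (neg_ne_zero.2 one_ne_zero)) h3 h1

/-- The decomposition of a matrix in generalized eigenvectors of the conjugation by `f`. -/
theorem mem_iSup (hres : Function.Surjective res) {k : ℕ} (hk : RingHom.ker res ^ k = ⊥)
    {lft : κ → A} (hl : ∀ x, res (lft x) = x) [DecidableEq A] {f f' : Matrix (Fin n) (Fin n) A}
    (h1 : f * f' = 1) (h2 : f' * f = 1) {b : Fin n → κ}
    (hb : (f.map res).charpoly = ∏ i, (X - C (b i))) (x : Matrix (Fin n) (Fin n) A) :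
    x ∈ ⨆ c ∈ Finset.univ.image fun p : Fin n × Fin n => lft (b p.1 * (b p.2)⁻¹),
      Module.End.maxGenEigenspace (LinearMap.mulLeft A f * LinearMap.mulRight A f') c := by
  set L : End A (Matrix (Fin n) (Fin n) A) := LinearMap.mulLeft A f with hL
  set R : End A (Matrix (Fin n) (Fin n) A) := LinearMap.mulRight A f with hR
  set R' : End A (Matrix (Fin n) (Fin n) A) := LinearMap.mulRight A f' with hR'
  set C₀ : Finset A := Finset.univ.image fun i => lft (b i) with hC₀
  have hC : ∀ c ∈ C₀, ∀ d ∈ C₀, c ≠ d → IsUnit (c - d) := by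
    refine unit_diff hres hk hl fun c hc => ?_
    obtain ⟨i, -, rfl⟩ := Finset.mem_image.1 hc
    exact ⟨_, rfl⟩
  have hA : aeval f (∏ c ∈ C₀, (X - C c) ^ (n * k)) = 0 := by
    refine annih hk hl f b ?_
    rw [← hb]
    exact Matrix.aeval_self_charpoly _
  have hAL : aeval L (∏ c ∈ C₀, (X - C c) ^ (n * k)) = 0 := by
    rw [hL, aeval_mulLeft, hA, LinearMap.mulLeft_zero_eq_zero]
  have hAR : aeval R (∏ c ∈ C₀, (X - C c) ^ (n * k)) = 0 := by
    rw [hR, aeval_mulRight, hA, LinearMap.mulRight_zero_eq_zero]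
  have hLR : Commute L R := LinearMap.commute_mulLeft_right f f
  have hLR' : Commute L R' := LinearMap.commute_mulLeft_right f f'
  have hRR' : R * R' = 1 := by
    ext y : 1
    change y * f' * f = y
    rw [mul_assoc, h2, mul_one]
  have hR'R : R' * R = 1 := by
    ext y : 1
    change y * f * f' = y
    rw [mul_assoc, h1, mul_one]
  obtain ⟨y, hy, hyx⟩ := exists_decomp hC hAL ⊤ (fun _ _ => trivial) (x := x) trivial
  rw [← hyx]
  refine Submodule.sum_mem _ fun c hc => ?_
  obtain ⟨z, hz, hzy⟩ := exists_decomp hC hAR (L.maxGenEigenspace c)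
    (fun w hw => Module.End.mapsTo_maxGenEigenspace_of_comm hLR c hw) (hy c hc).1
  rw [← hzy]
  refine Submodule.sum_mem _ fun d hd => ?_
  obtain ⟨i, -, rfl⟩ := Finset.mem_image.1 hc
  obtain ⟨j, -, rfl⟩ := Finset.mem_image.1 hd
  have hbj : b j ≠ 0 := root_ne_zero h1 hb j
  have hu : IsUnit (lft (b j)) := unit_of_res hres hk (by rw [hl]; exact hbj)
  obtain ⟨d', hd'⟩ := hu.exists_right_inv
  have h3 : z (lft (b j)) ∈ R'.maxGenEigenspace d' :=
    ge_inv hRR' hR'R hd' (hz _ hd).1
  have h4 := ge_mul hLR' (hz _ hd).2 h3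
  have h5 : z (lft (b j)) ∈ (L * R').maxGenEigenspace (lft (b i * (b j)⁻¹)) := by
    refine ge_of_nilp ⟨k, res_eq_zero_pow hk ?_⟩ h4
    have h6 : res d' = (b j)⁻¹ := by
      have h7 := congrArg res hd'
      rw [map_mul, hl, map_one] at h7
      exact eq_inv_of_mul_eq_one_right h7
    rw [map_sub, map_mul, hl, hl, h6, sub_self]
  refine Submodule.mem_iSup_of_mem (lft (b i * (b j)⁻¹)) (Submodule.mem_iSup_of_mem ?_ h5)
  exact Finset.mem_image.2 ⟨(i, j), Finset.mem_univ _, rfl⟩

end mat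

end Pool.Agent.H853.RU
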