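import Mathlib

/-!
# An integer controlling products of roots of an integral polynomial
-/

set_option autoImplicit false

namespace Pool.Agent.H853.RU

open Polynomial

theorem exists_N (P : ℤ[X]) (hP : P.Monic) (hroots : ∀ z : ℂ, aeval z P = 0 → 1 < ‖z‖) {m : ℕ}
    (hm : 0 < m) : ∃ N : ℕ, N ≠ 0 ∧ ∀ (E : Type) [Field E] (s : Fin m → E),
      (∀ i, aeval (s i) P = 0) → ∏ i, s i = 1 → (N : E) = 0 := by
  classical
  let I : Ideal (MvPolynomial (Fin m) ℤ) := Ideal.span
    ((Set.range fun i => aeval (MvPolynomial.X i : MvPolynomial (Fin m) ℤ) P) ∪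
      {(∏ i, MvPolynomial.X i) - 1})
  by_cases hN : ∃ N : ℕ, N ≠ 0 ∧ ((N : MvPolynomial (Fin m) ℤ)) ∈ I
  · obtain ⟨N, hN0, hN⟩ := hN
    refine ⟨N, hN0, fun E _ s hs hprod => ?_⟩
    let φ : MvPolynomial (Fin m) ℤ →ₐ[ℤ] E := MvPolynomial.aeval s
    have h1 : I ≤ RingHom.ker φ.toRingHom := by
      rw [Ideal.span_le]
      rintro x (⟨i, rfl⟩ | hx)
      · change φ (aeval (MvPolynomial.X i : MvPolynomial (Fin m) ℤ) P) = 0
        rw [← Polynomial.aeval_algHom_apply, MvPolynomial.aeval_X, hs]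
      · rw [Set.mem_singleton_iff] at hx
        subst hx
        change φ ((∏ i, MvPolynomial.X i) - 1) = 0
        rw [map_sub, map_prod, map_one, sub_eq_zero]
        simp only [φ, MvPolynomial.aeval_X]
        exact hprod
    have h2 : φ (N : MvPolynomial (Fin m) ℤ) = 0 := h1 hN
    rwa [map_natCast] at h2
  · exfalso
    push Not at hN
    let Q := MvPolynomial (Fin m) ℤ ⧸ I
    have hint : Algebra.IsIntegral ℤ Q := by
      refine ⟨fun x => ?_⟩
      obtain ⟨p, rfl⟩ := Ideal.Quotient.mk_surjective x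
      induction p using MvPolynomial.induction_on with
      | C a =>
        have h1 : (Ideal.Quotient.mk I) (MvPolynomial.C a) = algebraMap ℤ Q a := rfl
        rw [h1]
        exact isIntegral_algebraMap
      | add p q hp hq => rw [map_add]; exact hp.add hq
      | mul_X p i hp =>
        rw [map_mul]
        refine hp.mul ⟨P, hP, ?_⟩
        have h1 : (Ideal.Quotient.mk I) (aeval (MvPolynomial.X i : MvPolynomial (Fin m) ℤ) P) = 0 :=
          Ideal.Quotient.eq_zero_iff_mem.2 (Ideal.subset_span (Or.inl ⟨i, rfl⟩))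
        have h2 : (Ideal.Quotient.mk I) (aeval (MvPolynomial.X i : MvPolynomial (Fin m) ℤ) P) =
            aeval ((Ideal.Quotient.mk I) (MvPolynomial.X i)) P :=
          (Polynomial.aeval_algHom_apply (Ideal.Quotient.mkₐ ℤ I) _ P).symm
        rw [h2] at h1
        exact h1
    obtain ⟨q, -, hq, hq0⟩ := Ideal.exists_ideal_over_prime_of_isIntegral (R := ℤ) (S := Q) ⊥ ⊥
      (by
        intro a ha
        rw [Ideal.mem_comap, Ideal.mem_bot] at ha
        rw [Ideal.mem_bot]
        by_contra ha0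
        refine hN a.natAbs (Int.natAbs_ne_zero.2 ha0) ?_
        have h1 : (MvPolynomial.C a : MvPolynomial (Fin m) ℤ) ∈ I :=
          Ideal.Quotient.eq_zero_iff_mem.1 ha
        rcases Int.natAbs_eq a with h2 | h2
        · rw [h2] at h1
          rw [← map_natCast (MvPolynomial.C : ℤ →+* MvPolynomial (Fin m) ℤ)]
          exact h1
        · rw [h2, map_neg] at h1
          rw [← map_natCast (MvPolynomial.C : ℤ →+* MvPolynomial (Fin m) ℤ)]
          exact neg_mem_iff.1 h1)
    have : IsDomain (Q ⧸ q) := Ideal.Quotient.isDomain q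
    have hint' : Algebra.IsIntegral ℤ (Q ⧸ q) := by
      refine ⟨fun x => ?_⟩
      obtain ⟨y, rfl⟩ := Ideal.Quotient.mk_surjective x
      exact (hint.isIntegral y).map (Ideal.Quotient.mkₐ ℤ q)
    have hinj : Function.Injective (algebraMap ℤ (Q ⧸ q)) := by
      rw [injective_iff_map_eq_zero]
      intro a ha
      have h1 : a ∈ q.comap (algebraMap ℤ Q) := by
        rw [Ideal.mem_comap]
        exact Ideal.Quotient.eq_zero_iff_mem.1 ha
      rw [hq0] at h1
      exact h1
    have : FaithfulSMul ℤ (Q ⧸ q) := (faithfulSMul_iff_algebraMap_injective ℤ (Q ⧸ q)).2 hinj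
    have : Algebra.IsAlgebraic ℤ (Q ⧸ q) := inferInstance
    let ψ : (Q ⧸ q) →ₐ[ℤ] ℂ := IsAlgClosed.lift
    let z : Fin m → ℂ := fun i => ψ (Ideal.Quotient.mk q (Ideal.Quotient.mk I (MvPolynomial.X i)))
    let χ : MvPolynomial (Fin m) ℤ →ₐ[ℤ] ℂ :=
      (ψ.comp (Ideal.Quotient.mkₐ ℤ q)).comp (Ideal.Quotient.mkₐ ℤ I)
    have hχ : ∀ p ∈ I, χ p = 0 := by
      intro p hp
      change ψ (Ideal.Quotient.mk q (Ideal.Quotient.mk I p)) = 0
      rw [Ideal.Quotient.eq_zero_iff_mem.2 hp, map_zero, map_zero]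
    have hz1 : ∀ i, 1 < ‖χ (MvPolynomial.X i)‖ := by
      intro i
      refine hroots _ ?_
      rw [Polynomial.aeval_algHom_apply]
      exact hχ _ (Ideal.subset_span (Or.inl ⟨i, rfl⟩))
    have hz2 : ∏ i, χ (MvPolynomial.X i) = 1 := by
      have h1 := hχ _ (Ideal.subset_span (Or.inr rfl))
      rw [map_sub, map_prod, map_one, sub_eq_zero] at h1
      exact h1
    have h1 : ‖∏ i, χ (MvPolynomial.X i)‖ = 1 := by rw [hz2, norm_one]
    rw [norm_prod] at h1
    have h2 : 1 < ∏ i : Fin m, ‖χ (MvPolynomial.X i)‖ := by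
      have : Nonempty (Fin m) := ⟨⟨0, hm⟩⟩
      calc (1 : ℝ) = ∏ i : Fin m, 1 := by rw [Finset.prod_const_one]
        _ < ∏ i : Fin m, ‖χ (MvPolynomial.X i)‖ :=
          Finset.prod_lt_prod_of_nonempty (fun _ _ => one_pos) (fun i _ => hz1 i)
            Finset.univ_nonempty
    rw [h1] at h2
    exact lt_irrefl _ h2

/-- One integer for all lengths up to `n`, in terms of lists. -/
theorem exists_N_list (P : ℤ[X]) (hP : P.Monic) (hroots : ∀ z : ℂ, aeval z P = 0 → 1 < ‖z‖)
    (n : ℕ) : ∃ N : ℕ, N ≠ 0 ∧ ∀ (E : Type) [Field E] (L : List E), L ≠ [] → L.length ≤ n →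
      (∀ s ∈ L, aeval s P = 0) → L.prod = 1 → (N : E) = 0 := by
  classical
  induction n with
  | zero =>
    refine ⟨1, one_ne_zero, fun E _ L hL1 hL2 => ?_⟩
    rw [Nat.le_zero, List.length_eq_zero_iff] at hL2
    exact absurd hL2 hL1
  | succ n ih =>
    obtain ⟨N, hN0, hN⟩ := ih
    obtain ⟨N', hN0', hN'⟩ := exists_N P hP hroots (Nat.succ_pos n)
    refine ⟨N * N', mul_ne_zero hN0 hN0', fun E _ L hL1 hL2 hL3 hL4 => ?_⟩
    rw [Nat.cast_mul]
    rcases Nat.lt_or_eq_of_le hL2 with h1 | h1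
    · rw [hN E L hL1 (by omega) hL3 hL4, zero_mul]
    · have h2 := hN' E (fun i => L.get (i.cast h1.symm)) (fun i => hL3 _ (List.get_mem _ _)) (by
        rw [← List.prod_ofFn, ← hL4]
        congr 1
        conv_rhs => rw [← List.ofFn_get L]
        exact (List.ofFn_congr h1 L.get).symm)
      rw [h2, mul_zero]

end Pool.Agent.H853.RU
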