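import Pool.Agent.H853.RU.Gen

/-!
# Nilpotent algebras over local rings with nilpotent maximal ideal
-/

set_option autoImplicit false

namespace Pool.Agent.H853.RU

open Module

section arith

variable {A : Type*} [CommRing A] {E : Type*} [Ring E] [Algebra A E]

theorem smul_le_of {𝔪 : Ideal A} {k : ℕ} (hk : 𝔪 ^ k = ⊥) {P : Submodule A E} (hP : P ≤ 𝔪 • P) :
    P = ⊥ := by
  have h1 : ∀ j, P ≤ 𝔪 ^ j • P := by
    intro j
    induction j with
    | zero => rw [pow_zero, Ideal.one_eq_top, Submodule.top_smul]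
    | succ j ih =>
      calc P ≤ 𝔪 ^ j • P := ih
        _ ≤ 𝔪 ^ j • (𝔪 • P) := Submodule.smul_mono le_rfl hP
        _ = 𝔪 ^ (j + 1) • P := by rw [← Submodule.mul_smul, ← pow_succ]
  rw [eq_bot_iff]
  refine (h1 k).trans ?_
  rw [hk, Submodule.bot_smul]

theorem smul_mul_le (𝔪 : Ideal A) (P Q : Submodule A E) : (𝔪 • P) * Q ≤ 𝔪 • (P * Q) := by
  rw [Submodule.mul_le]
  intro x hx y hy
  refine Submodule.smul_induction_on hx (fun a ha z hz => ?_) fun z w hz hw => ?_
  · rw [smul_mul_assoc]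
    exact Submodule.smul_mem_smul ha (Submodule.mul_mem_mul hz hy)
  · rw [add_mul]
    exact Submodule.add_mem _ hz hw

theorem mul_smul_le (𝔪 : Ideal A) (P Q : Submodule A E) : P * (𝔪 • Q) ≤ 𝔪 • (P * Q) := by
  rw [Submodule.mul_le]
  intro x hx y hy
  refine Submodule.smul_induction_on hy (fun a ha z hz => ?_) fun z w hz hw => ?_
  · rw [mul_smul_comm]
    exact Submodule.smul_mem_smul ha (Submodule.mul_mem_mul hx hz)
  · rw [mul_add]
    exact Submodule.add_mem _ hz hw

/-- If `I` is generated by `Y` modulo `𝔪 I + I²`, and `Y ^ n = 0`, then `I ^ n = 0`. -/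
theorem pow_eq_bot {𝔪 : Ideal A} {k : ℕ} (hk : 𝔪 ^ k = ⊥) {I Y : Submodule A E} {K n : ℕ}
    (hI : I ^ K = ⊥) (hII : I * I ≤ I) (hYI : Y ≤ I) (hgen : I ≤ Y ⊔ (𝔪 • I ⊔ I * I)) (hn : 1 ≤ n) (hY : Y ^ n = ⊥) :
    I ^ n = ⊥ := by
  have h1 : ∀ j, I ^ (j + 1) ≤ Y ^ (j + 1) ⊔ (𝔪 • I ^ (j + 1) ⊔ I ^ (j + 2)) := by
    intro j
    induction j with
    | zero =>
      rw [zero_add, pow_one, pow_one]
      refine hgen.trans (sup_le_sup le_rfl (sup_le_sup le_rfl ?_))
      rw [pow_two]
    | succ j ih =>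
      rw [pow_succ I (j + 1)]
      refine (mul_le_mul' ih hgen).trans ?_
      rw [Submodule.sup_mul, Submodule.mul_sup]
      refine sup_le (sup_le ?_ ?_) ?_
      · rw [← pow_succ]
        exact le_sup_left
      · refine le_trans ?_ le_sup_right
        rw [Submodule.mul_sup]
        refine sup_le_sup ?_ ?_
        · refine (mul_smul_le _ _ _).trans (Submodule.smul_mono le_rfl ?_)
          exact mul_le_mul' (pow_le_pow_left' hYI _) le_rfl
        · refine (mul_le_mul' (pow_le_pow_left' hYI _) le_rfl).trans ?_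
          rw [← pow_two, ← pow_add]
      · refine le_trans ?_ le_sup_right
        have h2 : Y ⊔ (𝔪 • I ⊔ I * I) ≤ I :=
          sup_le hYI (sup_le Submodule.smul_le_right hII)
        refine (mul_le_mul' le_rfl h2).trans ?_
        rw [Submodule.sup_mul]
        refine sup_le_sup (smul_mul_le _ _ _) ?_
        rw [← pow_succ]
  have hY' : ∀ j, n ≤ j → Y ^ j = ⊥ := by
    intro j hj
    obtain ⟨r, rfl⟩ := Nat.exists_eq_add_of_le hj
    rw [pow_add, hY, Submodule.bot_mul]
  have h2 : ∀ i, i ≤ K → I ^ (n + (K - i)) = ⊥ := by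
    intro i
    induction i with
    | zero =>
      intro _
      rw [Nat.sub_zero, add_comm, pow_add, hI, Submodule.bot_mul]
    | succ i ih =>
      intro hi
      obtain ⟨j, hj⟩ : ∃ j, n + (K - (i + 1)) = j + 1 := ⟨n + (K - (i + 1)) - 1, by omega⟩
      have h3 := ih (by omega)
      have h4 : n + (K - i) = j + 2 := by omega
      rw [h4] at h3
      rw [hj]
      refine smul_le_of hk ?_
      have h5 := h1 j
      rw [h3, hY' (j + 1) (by omega), sup_bot_eq, bot_sup_eq] at h5
      exact h5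
  have h3 := h2 K le_rfl
  rwa [Nat.sub_self, add_zero] at h3

end arith

end Pool.Agent.H853.RU
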